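import Pool.Agent.W_3b51b4_h27.Oca

/-!
# The Open Colouring Axiom for sets of reals implies the axiom for separable metrizable spaces
-/

namespace Pool.Agent.W_3b51b4_h27

open Set TopologicalSpace

/-- The Open Colouring Axiom for sets of reals (subsets of `ℕ`): let `G` be an open graph on the set
`X` of reals, that is, `G` is symmetric and with `(x, y)` it contains all pairs `(x', y')` of elements
of `X` such that `x'`, `y'` have the same elements below `n` as `x`, `y`, for some `n`. Then there is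
an uncountable `A ⊆ X` any two distinct elements of which are connected, or `X` is the union of
countably many sets (given by `c : Set ℕ → ℕ`) no two distinct elements of which are connected. -/
def OCAReals : Prop :=
  ∀ (X : Set (Set ℕ)) (G : Set ℕ → Set ℕ → Prop),
    (∀ x ∈ X, ∀ y ∈ X, G x y → G y x ∧ ∃ n : ℕ, ∀ x' ∈ X, ∀ y' ∈ X,
      (∀ k < n, k ∈ x ↔ k ∈ x') → (∀ k < n, k ∈ y ↔ k ∈ y') → G x' y') →
    (∃ A ⊆ X, ¬ A.Countable ∧ ∀ x ∈ A, ∀ y ∈ A, x ≠ y → G x y) ∨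
    (∃ c : Set ℕ → ℕ, ∀ x ∈ X, ∀ y ∈ X, c x = c y → x ≠ y → ¬ G x y)

theorem oca_of_reals (h : OCAReals) : OCA := by
  intro S _ _ _ G hG hsym
  obtain ⟨b, hbc, hbn, hb⟩ := exists_countable_basis S
  rcases isEmpty_or_nonempty S with hS | hS
  · exact Or.inr ⟨fun _ => 0, fun x => hS.elim x⟩
  have hbne : b.Nonempty := by
    obtain ⟨s⟩ := hS
    obtain ⟨v, hv, -, -⟩ := hb.exists_subset_of_mem_open (mem_univ s) isOpen_univ
    exact ⟨v, hv⟩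
  obtain ⟨B, hB⟩ := hbc.exists_eq_range hbne
  let φ : S → Set ℕ := fun s => {n | s ∈ B n}
  have hBo : ∀ n, IsOpen (B n) := fun n => hb.isOpen (hB ▸ mem_range_self n)
  have hbase : ∀ (s : S) (U : Set S), IsOpen U → s ∈ U → ∃ n, s ∈ B n ∧ B n ⊆ U := by
    intro s U hU hs
    obtain ⟨v, hv, hsv, hvU⟩ := hb.exists_subset_of_mem_open hs hU
    rw [hB] at hv
    obtain ⟨n, rfl⟩ := hv
    exact ⟨n, hsv, hvU⟩
  have hφ : ∀ s t, φ s = φ t → s = t := by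
    intro s t hst
    by_contra hne
    obtain ⟨n, hn, hn'⟩ := hbase s {t}ᶜ isOpen_compl_singleton hne
    have h1 : n ∈ φ t := hst ▸ (show n ∈ φ s from hn)
    exact hn' h1 rfl
  have key : ∀ x ∈ range φ, ∀ y ∈ range φ, (∃ s t, φ s = x ∧ φ t = y ∧ (s, t) ∈ G) →
      (∃ s t, φ s = y ∧ φ t = x ∧ (s, t) ∈ G) ∧ ∃ n : ℕ, ∀ x' ∈ range φ, ∀ y' ∈ range φ,
      (∀ k < n, k ∈ x ↔ k ∈ x') → (∀ k < n, k ∈ y ↔ k ∈ y') →
      ∃ s t, φ s = x' ∧ φ t = y' ∧ (s, t) ∈ G := by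
    rintro _ ⟨s, rfl⟩ _ ⟨t, rfl⟩ ⟨s', t', h1, h2, h3⟩
    rw [hφ _ _ h1, hφ _ _ h2] at h3
    refine ⟨⟨t, s, rfl, rfl, hsym _ _ h3⟩, ?_⟩
    obtain ⟨U, V, hU, hV, hs, ht, hUV⟩ := isOpen_prod_iff.1 hG s t h3
    obtain ⟨n, hn, hnU⟩ := hbase s U hU hs
    obtain ⟨m, hm, hmV⟩ := hbase t V hV ht
    refine ⟨max n m + 1, ?_⟩
    rintro _ ⟨s1, rfl⟩ _ ⟨t1, rfl⟩ h4 h5
    refine ⟨s1, t1, rfl, rfl, hUV ⟨hnU ?_, hmV ?_⟩⟩
    · exact (h4 n (by omega)).1 hn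
    · exact (h5 m (by omega)).1 hm
  rcases h (range φ) (fun x y => ∃ s t, φ s = x ∧ φ t = y ∧ (s, t) ∈ G) key with
    ⟨A, hA, hAc, hAG⟩ | ⟨c, hc⟩
  · left
    refine ⟨φ ⁻¹' A, fun hcn => hAc ?_, ?_⟩
    · have : A = φ '' (φ ⁻¹' A) := (image_preimage_eq_of_subset hA).symm
      rw [this]
      exact hcn.image φ
    · intro s hs t ht hne
      obtain ⟨s', t', h1, h2, h3⟩ := hAG (φ s) hs (φ t) ht fun h => hne (hφ s t h)
      rw [hφ _ _ h1, hφ _ _ h2] at h3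
      exact h3
  · right
    refine ⟨fun s => c (φ s), fun s t hne hst hG => ?_⟩
    exact hc (φ s) ⟨s, rfl⟩ (φ t) ⟨t, rfl⟩ hst (fun h => hne (hφ s t h)) ⟨s, t, rfl, rfl, hG⟩

end Pool.Agent.W_3b51b4_h27
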