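import Mathlib

/-!
# A weak pressing down lemma on a well-order of type `ω₂`
-/

namespace Pool.Agent.W_3b51b4_h27

open Set Cardinal

theorem Press_aleph : ℵ₀ ≤ (ℵ₁ : Cardinal.{0}) := Cardinal.aleph0_le_aleph 1

theorem Press_Iic {Ω : Type} [LinearOrder Ω] (hΩ : ∀ a : Ω, #(Iio a) ≤ ℵ₁) (t : Ω) :
    #(Iic t) ≤ ℵ₁ := by
  have h3 : Iic t = insert t (Iio t) := by
    ext x
    rw [Set.mem_Iic, Set.mem_insert_iff, Set.mem_Iio, le_iff_eq_or_lt]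
  rw [h3]
  refine (Cardinal.mk_insert_le).trans ?_
  calc #(Iio t) + 1 ≤ ℵ₁ + ℵ₁ := add_le_add (hΩ t) (Cardinal.one_le_aleph0.trans Press_aleph)
    _ = ℵ₁ := Cardinal.add_eq_self Press_aleph

/-- In a well-order all of whose initial segments have size at most `ℵ₁`, and which has size bigger
than `ℵ₁`, every set of size at most `ℵ₁` is strictly bounded.

PROOF. Otherwise `Ω` is the union of the `Iic t`, `t ∈ T`, and has size at most
`ℵ₁ * ℵ₁ = ℵ₁`. -/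
theorem bdd_of_card_le {Ω : Type} [LinearOrder Ω] (hΩ : ∀ a : Ω, #(Iio a) ≤ ℵ₁)
    (hΩ2 : ℵ₁ < #Ω) (T : Set Ω) (hT : #T ≤ ℵ₁) : ∃ γ, ∀ t ∈ T, t < γ := by
  by_contra hcon
  push Not at hcon
  have h1 : (Set.univ : Set Ω) = ⋃ t ∈ T, Iic t := by
    symm
    rw [Set.eq_univ_iff_forall]
    intro γ
    obtain ⟨t, ht, h2⟩ := hcon γ
    exact Set.mem_biUnion ht h2
  have h3 : ∀ t : Ω, #(Iic t) ≤ ℵ₁ := Press_Iic hΩ
  have h4 : #Ω ≤ ℵ₁ := by
    rw [← Cardinal.mk_univ, h1]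
    refine (Cardinal.mk_biUnion_le _ _).trans ?_
    calc #T * ⨆ x : T, #(Iic x.1) ≤ ℵ₁ * ℵ₁ := mul_le_mul' hT (ciSup_le' fun x => h3 x.1)
      _ = ℵ₁ := Cardinal.mul_eq_self Press_aleph
  exact absurd hΩ2 (not_lt.2 h4)

/-- countable sets are bounded in an uncountable order with countable initial segments -/
theorem Press_bdd_countable {Ω : Type} [LinearOrder Ω] (hΩ : ∀ a : Ω, (Iio a).Countable)
    (hΩ2 : ¬ Countable Ω) (T : Set Ω) (hT : T.Countable) : ∃ γ, ∀ t ∈ T, t < γ := by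
  by_contra hcon
  push Not at hcon
  have h1 : (⋃ t ∈ T, Iic t) = (Set.univ : Set Ω) := by
    rw [Set.eq_univ_iff_forall]
    intro γ
    obtain ⟨t, ht, h2⟩ := hcon γ
    exact Set.mem_biUnion ht h2
  have h2 : (⋃ t ∈ T, Iic t).Countable := by
    refine hT.biUnion fun t _ => ?_
    have h3 : Iic t = insert t (Iio t) := by
      ext x
      rw [Set.mem_Iic, Set.mem_insert_iff, Set.mem_Iio, le_iff_eq_or_lt]
    rw [h3]
    exact (hΩ t).insert t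
  rw [h1, Set.countable_univ_iff] at h2
  exact hΩ2 h2

/-- recursion -/
theorem Press_rec {Ω Ω' : Type} [LinearOrder Ω] [LinearOrder Ω'] [WellFoundedLT Ω']
    (hΩ : ∀ T : Set Ω, T.Countable → ∃ γ, ∀ t ∈ T, t < γ) (hΩ' : ∀ a : Ω', (Iio a).Countable)
    (H : Ω → Ω) : ∃ d : Ω' → Ω, ∀ ξ, ∀ η < ξ, H (d η) < d ξ := by
  obtain ⟨γ0, -⟩ := hΩ ∅ Set.countable_empty
  have h1 : ∀ T : Set Ω, ∃ γ, T.Countable → ∀ t ∈ T, t < γ := by
    intro T
    by_cases hT : T.Countable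
    · obtain ⟨γ, hγ⟩ := hΩ T hT
      exact ⟨γ, fun _ => hγ⟩
    · exact ⟨γ0, fun h => absurd h hT⟩
  choose b hb using h1
  let d : Ω' → Ω := (wellFounded_lt (α := Ω')).fix fun ξ r =>
    b {y | ∃ (η : Ω') (hη : η < ξ), y = H (r η hη)}
  have hd : ∀ ξ, d ξ = b {y | ∃ (η : Ω') (_ : η < ξ), y = H (d η)} := fun ξ =>
    (wellFounded_lt (α := Ω')).fix_eq _ ξ
  refine ⟨d, fun ξ η hη => ?_⟩
  rw [hd ξ]
  refine hb _ ?_ _ ⟨η, hη, rfl⟩
  have h2 : {y | ∃ (η : Ω') (_ : η < ξ), y = H (d η)} = (fun η => H (d η)) '' (Iio ξ) := by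
    ext y
    constructor
    · rintro ⟨η, hη, rfl⟩
      exact ⟨η, hη, rfl⟩
    · rintro ⟨η, hη, rfl⟩
      exact ⟨η, hη, rfl⟩
  rw [h2]
  exact (hΩ' ξ).image _

/-- Weak pressing down lemma.

PROOF. Suppose not: for all `β, i` there is `h β i` with `¬ P β i α` for all `α > h β i`. Let
`Ω' := (ℵ₁ : Cardinal.{0}).ord.ToType` (well-order, `#Ω' = ℵ₁`, all `Iio ξ` countable). For every
`x : Ω` the set `{h β i | β ≤ x, i}` has size at most `ℵ₁`, so by `bdd_of_card_le` there is `H x`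
with `x < H x` and `h β i < H x` for all `β ≤ x` and all `i`. By well-founded recursion on
`ξ : Ω'` choose `d ξ : Ω` with `H (d η) < d ξ` and `d η < d ξ` for all `η < ξ`
(`bdd_of_card_le` again). By `bdd_of_card_le` the range of `d` is bounded; let `δ` be the least
element with `d ξ ≤ δ` for all `ξ`. As `Ω'` has no maximum, `d ξ < δ` for all `ξ`, and for
`x < δ` there is `ξ` with `x < d ξ` (minimality). Hence (1) for `β < δ` and all `i`,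
`h β i < δ`: if `β < d ξ` then `h β i < H (d ξ) < d ξ'` for `ξ < ξ'`. (2) every countable
`s ⊆ Iio δ` is contained in some `Iio β`, `β < δ`: choose `ξ x` with `x < d (ξ x)` for `x ∈ s` and
`ξ*` above all `ξ x` (countable subsets of `Ω'` are bounded), `β := d ξ*`. By `hP` and (2) there
are `β < δ`, `i` with `P β i δ`; by (1) `h β i < δ`, contradiction. -/
theorem press {Ω Ω₁ : Type} [LinearOrder Ω] [WellFoundedLT Ω] (hΩ : ∀ a : Ω, #(Iio a) ≤ ℵ₁)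
    (hΩ2 : ℵ₁ < #Ω) (hΩ₁ : #Ω₁ ≤ ℵ₁) (P : Ω → Ω₁ → Ω → Prop)
    (hP : ∀ α : Ω, (∀ s : Set Ω, s.Countable → s ⊆ Iio α → ∃ β < α, s ⊆ Iio β) →
      ∃ β < α, ∃ i, P β i α) :
    ∃ β i, ∀ γ, ∃ α, γ < α ∧ P β i α := by
  by_contra hcon
  push Not at hcon
  choose h hh using hcon
  let Ω' : Type := (ℵ₁ : Cardinal.{0}).ord.ToType
  have hΩ' : #Ω' = ℵ₁ := by
    change #((ℵ₁ : Cardinal.{0}).ord.ToType) = ℵ₁
    rw [Cardinal.mk_toType, Cardinal.card_ord]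
  have hΩ'c : ∀ a : Ω', (Iio a).Countable := by
    intro a
    rw [Cardinal.countable_iff_lt_aleph_one]
    exact Cardinal.mk_Iio_ord_toType a
  have hΩ'n : ¬ Countable Ω' := by
    intro hc
    rw [← Cardinal.mk_le_aleph0_iff, hΩ'] at hc
    exact absurd hc (not_le.2 Cardinal.aleph0_lt_aleph_one)
  have hb := Press_bdd_countable hΩ'c hΩ'n
  have hnext : ∀ ξ : Ω', ∃ ξ', ξ < ξ' := by
    intro ξ
    obtain ⟨γ, hγ⟩ := hb {ξ} (Set.countable_singleton ξ)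
    exact ⟨γ, hγ ξ rfl⟩
  -- the function `H`
  have hH : ∀ x : Ω, ∃ y, x < y ∧ ∀ β ≤ x, ∀ i, h β i < y := by
    intro x
    obtain ⟨y, hy⟩ := bdd_of_card_le hΩ hΩ2
      (insert x ((fun p : Iic x × Ω₁ => h p.1 p.2) '' Set.univ)) (by
        refine (Cardinal.mk_insert_le).trans ?_
        have h5 : #((fun p : Iic x × Ω₁ => h p.1 p.2) '' Set.univ) ≤ ℵ₁ := by
          refine Cardinal.mk_image_le.trans ?_
          rw [Cardinal.mk_univ, Cardinal.mk_prod, Cardinal.lift_id, Cardinal.lift_id]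
          calc #(Iic x) * #Ω₁ ≤ ℵ₁ * ℵ₁ := mul_le_mul' (Press_Iic hΩ x) hΩ₁
            _ = ℵ₁ := Cardinal.mul_eq_self Press_aleph
        calc _ ≤ ℵ₁ + ℵ₁ := add_le_add h5 (Cardinal.one_le_aleph0.trans Press_aleph)
          _ = ℵ₁ := Cardinal.add_eq_self Press_aleph)
    refine ⟨y, hy x (Set.mem_insert _ _), fun β hβ i => ?_⟩
    exact hy _ (Set.mem_insert_of_mem _ ⟨(⟨β, hβ⟩, i), Set.mem_univ _, rfl⟩)
  choose H hH1 hH2 using hH
  obtain ⟨d, hd⟩ := Press_rec (Ω' := Ω') (fun T hT => bdd_of_card_le hΩ hΩ2 T (by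
    have h6 : #T ≤ ℵ₀ := Cardinal.mk_le_aleph0_iff.2 hT.to_subtype
    exact h6.trans Press_aleph)) hΩ'c H
  have hdm : ∀ ξ, ∀ η < ξ, d η < d ξ := fun ξ η hη => (hH1 _).trans (hd ξ η hη)
  obtain ⟨δ0, hδ0⟩ := bdd_of_card_le hΩ hΩ2 (Set.range d) (by
    refine Cardinal.mk_range_le.trans ?_
    rw [hΩ'])
  let S : Set Ω := {x | ∀ ξ, d ξ ≤ x}
  have hS : S.Nonempty := ⟨δ0, fun ξ => (hδ0 _ ⟨ξ, rfl⟩).le⟩
  let δ : Ω := (wellFounded_lt (α := Ω)).min S hS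
  have hδ : ∀ ξ, d ξ ≤ δ := (wellFounded_lt (α := Ω)).min_mem S hS
  have hδ' : ∀ ξ, d ξ < δ := by
    intro ξ
    obtain ⟨ξ', hξ'⟩ := hnext ξ
    exact (hdm ξ' ξ hξ').trans_le (hδ ξ')
  have hmin : ∀ x < δ, ∃ ξ, x < d ξ := by
    intro x hx
    by_contra hc
    push Not at hc
    exact (wellFounded_lt (α := Ω)).not_lt_min S hc hx
  obtain ⟨β, hβ, i, hP'⟩ := hP δ (by
    intro s hs hsδ
    have h7 : ∀ x : Ω, ∃ ξ, x < δ → x < d ξ := by
      intro x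
      by_cases hx : x < δ
      · obtain ⟨ξ, hξ⟩ := hmin x hx
        exact ⟨ξ, fun _ => hξ⟩
      · obtain ⟨γ, -⟩ := hb ∅ Set.countable_empty
        exact ⟨γ, fun h => absurd h hx⟩
    choose ξ hξ using h7
    obtain ⟨ξs, hξs⟩ := hb (ξ '' s) (hs.image ξ)
    refine ⟨d ξs, hδ' ξs, fun x hx => ?_⟩
    exact (hξ x (hsδ hx)).trans (hdm _ _ (hξs _ ⟨x, hx, rfl⟩)))
  obtain ⟨ξ, hξ⟩ := hmin β hβ
  obtain ⟨ξ', hξ'⟩ := hnext ξ
  exact hh β i δ (((hH2 (d ξ) β hξ.le i).trans (hd ξ' ξ hξ')).trans (hδ' ξ')) hP'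

end Pool.Agent.W_3b51b4_h27
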