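import Pool.Agent.W_3b51b4_h27.Defs
import Pool.Agent.W_3b51b4_h27.Press

/-!
# Step 3: the chain of sets of functions and the choice of one metrizable quotient
-/

namespace Pool.Agent.W_3b51b4_h27

open Set Topology Cardinal

universe u

/-- The type of size `ℵ₁` (a well-order of type `ω₁`). -/
abbrev Om1 : Type := (ℵ₁ : Cardinal.{0}).ord.ToType

/-- Every `x` and every family of continuous functions: countably many of them define the same
fibre through `x` (`HereditarilyLindelofSpace`).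

PROOF. The complement of the fibre is the union of the open sets `{y | h i y ≠ h i x}`; use
`eq_open_union_countable`. -/
theorem countable_fibre {X : Type u} [TopologicalSpace X] [HereditarilyLindelofSpace X]
    {ι : Type*} (h : ι → X → ℝ) (hh : ∀ i, Continuous (h i)) (x : X) :
    ∃ J : Set ι, J.Countable ∧ ∀ y, (∀ i ∈ J, h i y = h i x) → ∀ i, h i y = h i x := by
  have hU : ∀ i, IsOpen {y | h i y ≠ h i x} := fun i => isOpen_ne_fun (hh i) continuous_const
  obtain ⟨J, hJ, hJU⟩ := eq_open_union_countable (fun i => {y | h i y ≠ h i x}) hU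
  refine ⟨J, hJ, fun y hy i => ?_⟩
  by_contra hne
  have h1 : y ∈ ⋃ i, {y | h i y ≠ h i x} := mem_iUnion.2 ⟨i, hne⟩
  rw [← hJU] at h1
  obtain ⟨j, hj, hjy⟩ := mem_iUnion₂.1 h1
  exact hjy (hy j hj)

/-- Recursive construction of the increasing chain of sets -/
theorem Chain_rec {F : Type*} {Ω : Type*} [LinearOrder Ω] [WellFoundedLT Ω] (o : F)
    (Γ : Set F → Set F) :
    ∃ Cs : Ω → Set F, ∀ α, Cs α = {o} ∪ ⋃ β, ⋃ _ : β < α, Γ (Cs β) := by
  let step : (α : Ω) → ((β : Ω) → β < α → Set F) → Set F :=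
    fun α r => {o} ∪ ⋃ β, ⋃ hβ : β < α, Γ (r β hβ)
  refine ⟨(wellFounded_lt : WellFounded ((· < ·) : Ω → Ω → Prop)).fix step, fun α => ?_⟩
  rw [WellFounded.fix_eq]

theorem Chain_card_Om1 : #Om1 = ℵ₁ := mk_ord_toType _

theorem Chain_nonempty_Om1 : Nonempty Om1 := by
  rw [← mk_ne_zero_iff, Chain_card_Om1]
  exact (aleph_pos 1).ne'

/-- Initial segments are countable -/
theorem Chain_Iic_countable (i : Om1) : (Iic i).Countable := by
  have h1 : #(Iio i) < ℵ₁ := mk_Iio_toType_ord_lt i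
  have h2 : (Iio i).Countable := by
    rw [← le_aleph0_iff_set_countable, ← Order.lt_succ_iff, succ_aleph0]
    exact h1
  rw [← Iio_insert]
  exact h2.insert i

/-- Countable subsets are bounded -/
theorem Chain_bdd (S : Set Om1) (hS : S.Countable) : ∃ i, ∀ s ∈ S, s ≤ i := by
  by_contra hc
  push Not at hc
  have h1 : (univ : Set Om1) ⊆ ⋃ s ∈ S, Iic s := by
    intro i _
    obtain ⟨s, hs, his⟩ := hc i
    exact mem_iUnion₂.2 ⟨s, hs, his.le⟩
  have h2 : (univ : Set Om1).Countable :=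
    (hS.biUnion fun s _ => Chain_Iic_countable s).mono h1
  have h3 : #Om1 ≤ ℵ₀ := by
    rw [mk_le_aleph0_iff]
    exact countable_univ_iff.1 h2
  rw [Chain_card_Om1] at h3
  exact absurd h3 (not_le.2 aleph0_lt_aleph_one)

/-- Nonempty and of size at most `ℵ₁` -/
def Chain_Sm {F : Type*} (C : Set F) : Prop := ∃ e : Om1 → F, range e = C

theorem Chain_sm_range {F : Type*} {T : Type} [Nonempty T] (hT : #T ≤ ℵ₁) (f : T → F) :
    Chain_Sm (range f) := by
  rw [← Chain_card_Om1] at hT
  obtain ⟨φ⟩ := hT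
  refine ⟨f ∘ Function.invFun φ, ?_⟩
  rw [(Function.invFun_surjective φ.injective).range_comp]

theorem Chain_sm_iUnion {F : Type*} {T : Type} [Nonempty T] (hT : #T ≤ ℵ₁) (A : T → Set F)
    (hA : ∀ t, Chain_Sm (A t)) : Chain_Sm (⋃ t, A t) := by
  choose e he using hA
  have := Chain_nonempty_Om1
  have h1 : (⋃ t, A t) = range (fun q : T × Om1 => e q.1 q.2) := by
    ext h
    simp only [mem_iUnion, mem_range, Prod.exists]
    constructor
    · rintro ⟨t, ht⟩
      rw [← he t] at ht
      obtain ⟨i, hi⟩ := ht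
      exact ⟨t, i, hi⟩
    · rintro ⟨t, i, hi⟩
      exact ⟨t, by rw [← he t]; exact ⟨i, hi⟩⟩
  rw [h1]
  apply Chain_sm_range
  rw [mk_prod, lift_id, lift_id, Chain_card_Om1]
  exact (mul_le_mul' hT le_rfl).trans (mul_eq_self (aleph0_le_aleph 1)).le

theorem Chain_sm_union {F : Type*} {A B : Set F} (hA : Chain_Sm A) (hB : Chain_Sm B) :
    Chain_Sm (A ∪ B) := by
  rw [union_eq_iUnion]
  apply Chain_sm_iUnion
  · rw [mk_bool]
    exact (nat_lt_aleph0 2).le.trans (aleph0_le_aleph 1)
  · intro b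
    cases b
    · exact hB
    · exact hA

/-- The chain. Let `X` be a hereditarily Lindelof space in which no family of `ℵ₁` continuous
functions separates points, `g z` continuous, and let `Φ` assign to every sequence of continuous
functions a sequence of continuous functions. Then there are a sequence `D` of continuous functions
(with `π x n := D n x`), a well-order `A` of size bigger than `ℵ₁` with initial segments of size at
most `ℵ₁`, pairs `(z false a, z true a)` of distinct points with the same image under `π`, and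
increasing families `C a` of `ℵ₁` continuous functions which are constant on the `π`-fibre of
`z false a`, such that `C a` contains all `Φ D n` and all `g (z s b)`, `b < a`.

PROOF. For a set `C` of functions call `b(C) : X × X` a chosen pair of distinct points on which all
members of `C` agree, if there is one, and (if `C` is nonempty of size at most `ℵ₁`) let
`enum C : Om1 → X → ℝ` be a chosen surjection onto `C`; for `i : Om1` let `seq C i : ℕ → X → ℝ` be a
chosen sequence whose range is `enum C '' Iic i` (a nonempty countable set). Put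
`Γ C := C ∪ {g (b(C)).1, g (b(C)).2} ∪ {Φ (seq C i) n | i, n}` and define, by well-founded recursion
on `α` in `Om2 := (ℵ_ 2 : Cardinal.{0}).ord.ToType`,
`Cs α := {fun _ => 0} ∪ ⋃ β < α, Γ (Cs β)`. By induction all `Cs α` are nonempty sets of at most
`ℵ₁` continuous functions, so `b(Cs α)` is a pair of distinct points (by `hw`); `Cs` is monotone and
`Γ (Cs β) ⊆ Cs α` for `β < α`. Put `x α := (b(Cs α)).1`, `y α := (b(Cs α)).2`.
Apply `press` to `Om2`, `Om1` and `P β i α := β < α ∧ ∀ y, (∀ n, seq (Cs β) i n y =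
seq (Cs β) i n (x α)) → ∀ h ∈ Cs α, h y = h (x α)`. Hypothesis `hP`: let every countable subset of
`Iio α` be contained in some `Iio β`, `β < α`. By `countable_fibre` there is a countable
`J ⊆ Cs α` with the same fibre through `x α`; every member of `J` is the zero function or belongs to
some `Γ (Cs β)`, `β < α`, hence all of `J` is contained in `Cs β` for one `β < α`, and (countable
subsets of `Om1` are bounded) in `enum (Cs β) '' Iic i` for some `i`; so `P β i α`.
`press` gives `β, i`; put `D := seq (Cs β) i`, `A := {α | P β i α}` (subtype of `Om2`; its size is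
bigger than `ℵ₁` because it is unbounded, otherwise use `bdd_of_card_le`), `z false a := x a`,
`z true a := y a`, `C a := enum (Cs a)`. All functions `D n` belong to `Cs β ⊆ Cs a`, so they agree
at `x a` and `y a`; `Φ D n ∈ Γ (Cs β) ⊆ Cs a` and `g (z s b) ∈ Γ (Cs b) ⊆ Cs a` for `b < a`. -/
theorem chain {X : Type u} [TopologicalSpace X] [HereditarilyLindelofSpace X]
    (hw : ∀ D : Om1 → X → ℝ, (∀ i, Continuous (D i)) → ∃ x y, x ≠ y ∧ ∀ i, D i x = D i y)
    (g : X → X → ℝ) (hg : ∀ z, Continuous (g z))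
    (Φ : (ℕ → X → ℝ) → ℕ → X → ℝ)
    (hΦ : ∀ D, (∀ n, Continuous (D n)) → ∀ n, Continuous (Φ D n)) :
    ∃ D : ℕ → X → ℝ, (∀ n, Continuous (D n)) ∧
      ∃ (A : Type) (_ : LinearOrder A) (_ : WellFoundedLT A),
        (∀ a : A, #(Iio a) ≤ ℵ₁) ∧ ℵ₁ < #A ∧
        ∃ (z : Bool → A → X) (C : A → Om1 → X → ℝ),
          (∀ a, z false a ≠ z true a) ∧ (∀ a i, Continuous (C a i)) ∧
          (∀ a i, ConstOn (fun x n => D n x) (C a i) (z false a)) ∧
          (∀ a n, D n (z false a) = D n (z true a)) ∧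
          (∀ a n, ∃ i, C a i = Φ D n) ∧
          (∀ a b, b < a → ∀ s, ∃ i, C a i = g (z s b)) ∧
          (∀ a b, b ≤ a → range (C b) ⊆ range (C a)) := by
  classical
  obtain ⟨x0, y0, -⟩ := hw (fun _ _ => 0) (fun _ => continuous_const)
  -- choice of pairs, enumerations, sequences
  have key : ∀ C : Set (X → ℝ), ∃ (p : X × X) (e : Om1 → X → ℝ) (sq : Om1 → ℕ → X → ℝ),
      ((∀ h ∈ C, Continuous h) ∧ Chain_Sm C) →
        (p.1 ≠ p.2 ∧ (∀ h ∈ C, h p.1 = h p.2) ∧ range e = C ∧
          ∀ i, range (sq i) = e '' Iic i) := by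
    intro C
    by_cases hC : (∀ h ∈ C, Continuous h) ∧ Chain_Sm C
    · obtain ⟨h1, e, he⟩ := hC
      obtain ⟨x, y, hxy, h2⟩ := hw e (fun i => h1 _ (by rw [← he]; exact ⟨i, rfl⟩))
      have h3 : ∀ i : Om1, ∃ f : ℕ → X → ℝ, range f = e '' Iic i := by
        intro i
        obtain ⟨f, hf⟩ := ((Chain_Iic_countable i).image e).exists_eq_range
          ⟨e i, i, mem_Iic.2 le_rfl, rfl⟩
        exact ⟨f, hf.symm⟩
      choose sq hsq using h3
      refine ⟨(x, y), e, sq, fun _ => ⟨hxy, ?_, he, hsq⟩⟩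
      intro h hh
      rw [← he] at hh
      obtain ⟨i, rfl⟩ := hh
      exact h2 i
    · exact ⟨(x0, x0), fun _ _ => 0, fun _ _ _ => 0, fun h => absurd h hC⟩
  choose b e sq hspec using key
  let zz : Bool → X × X → X := fun s p => cond s p.2 p.1
  let Γ : Set (X → ℝ) → Set (X → ℝ) := fun C => C ∪ ((range fun s : Bool => g (zz s (b C))) ∪
    range fun q : Om1 × ℕ => Φ (sq C q.1) q.2)
  let Om2 : Type := (ℵ_ 2 : Cardinal.{0}).ord.ToType
  obtain ⟨Cs, hCs⟩ := Chain_rec (Ω := Om2) (fun _ : X => (0 : ℝ)) Γ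
  have hneOm1 := Chain_nonempty_Om1
  have hOm2 : #Om2 = ℵ_ 2 := mk_ord_toType _
  have h12 : Order.succ (ℵ₁ : Cardinal.{0}) = ℵ_ 2 := by
    rw [succ_aleph, one_add_one_eq_two]
  have hIio : ∀ a : Om2, #(Iio a) ≤ ℵ₁ := by
    intro a
    rw [← Order.lt_succ_iff, h12]
    exact mk_Iio_toType_ord_lt a
  have hOm2' : ℵ₁ < #Om2 := by
    rw [hOm2, ← h12]
    exact Order.lt_succ _
  -- goodness is preserved
  have hΓ : ∀ C : Set (X → ℝ), ((∀ h ∈ C, Continuous h) ∧ Chain_Sm C) →
      ((∀ h ∈ Γ C, Continuous h) ∧ Chain_Sm (Γ C)) := by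
    intro C hC
    obtain ⟨-, -, he, hsq⟩ := hspec C hC
    constructor
    · rintro h (hh | ⟨s, rfl⟩ | ⟨q, rfl⟩)
      · exact hC.1 h hh
      · exact hg _
      · apply hΦ
        intro n
        have h1 : sq C q.1 n ∈ e C '' Iic q.1 := by rw [← hsq q.1]; exact ⟨n, rfl⟩
        obtain ⟨j, -, hj⟩ := h1
        rw [← hj]
        exact hC.1 _ (he.le ⟨j, rfl⟩)
    · apply Chain_sm_union hC.2
      apply Chain_sm_union
      · apply Chain_sm_range
        rw [mk_bool]
        exact (nat_lt_aleph0 2).le.trans (aleph0_le_aleph 1)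
      · apply Chain_sm_range
        rw [mk_prod, lift_id, lift_id, Chain_card_Om1, mk_nat]
        exact (mul_le_mul' le_rfl (aleph0_le_aleph 1)).trans (mul_eq_self (aleph0_le_aleph 1)).le
  have hgood : ∀ α, (∀ h ∈ Cs α, Continuous h) ∧ Chain_Sm (Cs α) := by
    intro α
    induction α using WellFoundedLT.induction with
    | ind α ih =>
      constructor
      · intro h hh
        rw [hCs α] at hh
        rcases hh with hh | hh
        · rw [mem_singleton_iff.1 hh]
          exact continuous_const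
        · obtain ⟨β, hβ, hh⟩ := mem_iUnion₂.1 hh
          exact (hΓ _ (ih β hβ)).1 h hh
      · have h1 : Cs α = ⋃ t : Option (Iio α),
            (t.elim {fun _ : X => (0 : ℝ)} fun β => Γ (Cs β.1)) := by
          rw [hCs α]
          ext h
          simp only [mem_union, mem_iUnion]
          constructor
          · rintro (hh | ⟨β, hβ, hh⟩)
            · exact ⟨none, hh⟩
            · exact ⟨some ⟨β, hβ⟩, hh⟩
          · rintro ⟨t, ht⟩
            cases t with
            | none => exact Or.inl ht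
            | some β => exact Or.inr ⟨β.1, β.2, ht⟩
        rw [h1]
        apply Chain_sm_iUnion
        · rw [mk_option]
          exact add_le_of_le (aleph0_le_aleph 1) (hIio α)
            (one_le_aleph0.trans (aleph0_le_aleph 1))
        · intro t
          cases t with
          | none =>
            refine ⟨fun _ => fun _ => 0, ?_⟩
            rw [range_const]
            rfl
          | some β => exact (hΓ _ (ih β.1 β.2)).2
  have hΓs : ∀ β α, β < α → Γ (Cs β) ⊆ Cs α := by
    intro β α hβ h hh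
    rw [hCs α]
    exact Or.inr (mem_iUnion₂.2 ⟨β, hβ, hh⟩)
  have hmono : ∀ β α, β ≤ α → Cs β ⊆ Cs α := by
    intro β α hβ
    rcases hβ.eq_or_lt with rfl | hβ
    · exact subset_rfl
    · exact subset_union_left.trans (hΓs β α hβ)
  have hzero : ∀ α, (fun _ : X => (0 : ℝ)) ∈ Cs α := by
    intro α
    rw [hCs α]
    exact Or.inl rfl
  have hmem : ∀ α j, e (Cs α) j ∈ Cs α := fun α j =>
    ((hspec _ (hgood α)).2.2.1).le ⟨j, rfl⟩
  have hex : ∀ α (h : X → ℝ), h ∈ Cs α → ∃ j, e (Cs α) j = h := fun α h hh =>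
    ((hspec _ (hgood α)).2.2.1).ge hh
  let P : Om2 → Om1 → Om2 → Prop := fun β i α => β < α ∧
    ∀ y, (∀ n, sq (Cs β) i n y = sq (Cs β) i n (b (Cs α)).1) →
      ∀ h ∈ Cs α, h y = h (b (Cs α)).1
  obtain ⟨β, i, hβi⟩ := press hIio hOm2' Chain_card_Om1.le P (by
    intro α Hα
    obtain ⟨J, hJ, hJx⟩ := countable_fibre (fun h : Cs α => (h : X → ℝ))
      (fun h => (hgood α).1 h h.2) (b (Cs α)).1
    obtain ⟨β0, hβ0, -⟩ := Hα ∅ countable_empty (empty_subset _)
    have h1 : ∀ h : Cs α, ∃ β < α, (h : X → ℝ) ∈ Γ (Cs β) := by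
      intro h
      have h2 := (hCs α).le h.2
      rcases h2 with h2 | h2
      · refine ⟨β0, hβ0, Or.inl ?_⟩
        rw [mem_singleton_iff.1 h2]
        exact hzero β0
      · obtain ⟨β, hβ, h2⟩ := mem_iUnion₂.1 h2
        exact ⟨β, hβ, h2⟩
    choose βf hβf hβf2 using h1
    obtain ⟨β, hβ, hsub⟩ := Hα (βf '' J) (hJ.image _) (by
      rintro _ ⟨h, -, rfl⟩
      exact hβf h)
    have h3 : ∀ h : Cs α, ∃ j : Om1, h ∈ J → e (Cs β) j = (h : X → ℝ) := by
      intro h
      by_cases hh : h ∈ J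
      · have h4 : (h : X → ℝ) ∈ Cs β := hΓs _ _ (hsub ⟨h, hh, rfl⟩) (hβf2 h)
        obtain ⟨j, hj⟩ := hex β _ h4
        exact ⟨j, fun _ => hj⟩
      · exact ⟨Classical.arbitrary _, fun h => absurd h hh⟩
    choose jf hjf using h3
    obtain ⟨i, hi⟩ := Chain_bdd (jf '' J) (hJ.image _)
    refine ⟨β, hβ, i, hβ, fun y hy h hh => ?_⟩
    refine hJx y ?_ ⟨h, hh⟩
    intro h' hh'
    have h5 : (h' : X → ℝ) ∈ range (sq (Cs β) i) := by
      rw [(hspec _ (hgood β)).2.2.2 i]
      exact ⟨jf h', hi _ ⟨h', hh', rfl⟩, hjf h' hh'⟩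
    obtain ⟨n, hn⟩ := h5
    have h6 := hy n
    rw [hn] at h6
    exact h6)
  have hD : ∀ n, sq (Cs β) i n ∈ Cs β := by
    intro n
    have h1 : sq (Cs β) i n ∈ e (Cs β) '' Iic i := by
      rw [← (hspec _ (hgood β)).2.2.2 i]
      exact ⟨n, rfl⟩
    obtain ⟨j, -, hj⟩ := h1
    rw [← hj]
    exact hmem β j
  refine ⟨sq (Cs β) i, fun n => (hgood β).1 _ (hD n), {α : Om2 // P β i α}, inferInstance,
    inferInstance, ?_, ?_, fun s a => zz s (b (Cs a.1)), fun a => e (Cs a.1), ?_, ?_, ?_, ?_, ?_,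
    ?_, ?_⟩
  · intro a
    refine le_trans ?_ (hIio a.1)
    refine mk_le_of_injective (f := fun t : Iio a => (⟨t.1.1, t.2⟩ : Iio a.1)) ?_
    intro t t' h
    have h1 : t.1.1 = t'.1.1 := congrArg (fun q : Iio a.1 => q.1) h
    exact Subtype.ext (Subtype.ext h1)
  · by_contra hc
    rw [not_lt] at hc
    obtain ⟨γ, hγ⟩ := bdd_of_card_le hIio hOm2' {α | P β i α} hc
    obtain ⟨α, hα, hP⟩ := hβi γ
    exact absurd (hγ α hP) (not_lt.2 hα.le)
  · intro a
    exact (hspec _ (hgood a.1)).1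
  · intro a j
    exact (hgood a.1).1 _ (hmem a.1 j)
  · intro a j y hy
    exact a.2.2 y (fun n => congrFun hy n) _ (hmem a.1 j)
  · intro a n
    exact (hspec _ (hgood a.1)).2.1 _ (hmono _ _ a.2.1.le (hD n))
  · intro a n
    have h1 : Φ (sq (Cs β) i) n ∈ Cs a.1 :=
      hΓs _ _ a.2.1 (Or.inr (Or.inr ⟨(i, n), rfl⟩))
    exact hex a.1 _ h1
  · intro a c hca s
    have h1 : g (zz s (b (Cs c.1))) ∈ Cs a.1 :=
      hΓs _ _ hca (Or.inr (Or.inl ⟨s, rfl⟩))
    exact hex a.1 _ h1
  · intro a c hca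
    show range (e (Cs c.1)) ⊆ range (e (Cs a.1))
    rw [(hspec _ (hgood a.1)).2.2.1, (hspec _ (hgood c.1)).2.2.1]
    exact hmono _ _ hca

end Pool.Agent.W_3b51b4_h27
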