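import Pool.Agent.W_3b51b4_h27.Defs

/-!
# Step 5: the closures of the killer sets form a point-countable family
-/

namespace Pool.Agent.W_3b51b4_h27

open Set Topology Cardinal

universe u

/-- An uncountable set in a well-order contains an uncountable subset all of whose initial segments
are countable.

PROOF. If all sets `T ∩ Iio a`, `a ∈ T`, are countable take `T`; otherwise let `a ∈ T` be least with
`T ∩ Iio a` uncountable and take `T ∩ Iio a`. -/
theorem exists_omega1_subset {Ω : Type*} [LinearOrder Ω] [WellFoundedLT Ω] (T : Set Ω)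
    (hT : ¬ T.Countable) : ∃ T' ⊆ T, ¬ T'.Countable ∧ ∀ a ∈ T', (T' ∩ Iio a).Countable := by
  by_cases h : ∀ a ∈ T, (T ∩ Iio a).Countable
  · exact ⟨T, subset_rfl, hT, h⟩
  · push Not at h
    obtain ⟨a0, ha0, ha0'⟩ := h
    obtain ⟨a, ⟨_, ha2⟩, hmin⟩ := WellFounded.has_min (wellFounded_lt (α := Ω))
      {a | a ∈ T ∧ ¬ (T ∩ Iio a).Countable} ⟨a0, ha0, ha0'⟩
    refine ⟨T ∩ Iio a, inter_subset_left, ha2, ?_⟩
    rintro b ⟨hb1, hb2⟩
    by_contra hcon
    refine hmin b ⟨hb1, fun hc => hcon (hc.mono ?_)⟩ hb2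
    rintro c ⟨⟨hc1, _⟩, hc2⟩
    exact ⟨hc1, hc2⟩

/-- Right separated families of length `ω₁` do not exist in hereditarily Lindelof spaces.

PROOF. Otherwise `x a ∉ U b` for all `b < a` in `T`. Pass to `T'` with countable initial segments
(`exists_omega1_subset`); by `eq_open_union_countable` (index type `T'`) there is a countable
`J ⊆ T'` with `x a ∈ ⋃ b ∈ J, U b` for all `a ∈ T'`; so for `a ∈ T'` there is `b ∈ J` with `a ≤ b`,
and `T'` is the union of the countable sets `T' ∩ Iic b`, `b ∈ J`: contradiction. -/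
theorem exists_mem_of_uncountable {X : Type u} [TopologicalSpace X] [HereditarilyLindelofSpace X]
    {Ω : Type*} [LinearOrder Ω] [WellFoundedLT Ω] (T : Set Ω) (hT : ¬ T.Countable)
    (x : Ω → X) (U : Ω → Set X) (hU : ∀ a, IsOpen (U a)) (hx : ∀ a ∈ T, x a ∈ U a) :
    ∃ a ∈ T, ∃ b ∈ T, b < a ∧ x a ∈ U b := by
  by_contra hcon
  push Not at hcon
  obtain ⟨T', hT'T, hT', hini⟩ := exists_omega1_subset T hT
  obtain ⟨J, hJ, hJU⟩ := eq_open_union_countable (fun a : T' => U a) fun a => hU a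
  apply hT'
  have h1 : T' ⊆ ⋃ b ∈ J, (T' ∩ Iic (b : Ω)) := by
    intro a ha
    have h2 : x a ∈ ⋃ b : T', U b := mem_iUnion.2 ⟨⟨a, ha⟩, hx a (hT'T ha)⟩
    rw [← hJU] at h2
    obtain ⟨b, hb, hab⟩ := mem_iUnion₂.1 h2
    refine mem_iUnion₂.2 ⟨b, hb, ha, ?_⟩
    by_contra hlt
    have hlt' : (b : Ω) < a := not_le.1 hlt
    exact hcon a (hT'T ha) b (hT'T b.2) hlt' hab
  refine Countable.mono h1 (hJ.biUnion fun b _ => ?_)
  have h3 : T' ∩ Iic (b : Ω) ⊆ (T' ∩ Iio (b : Ω)) ∪ {(b : Ω)} := by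
    rintro a ⟨ha1, ha2⟩
    rcases lt_or_eq_of_le ha2 with h | h
    · exact Or.inl ⟨ha1, h⟩
    · exact Or.inr h
  exact ((hini b b.2).union (countable_singleton _)).mono h3

/-- In a compact space the sets `{h < 1/(n+1)}` are a base at the only zero of `h`. -/
theorem Count_base {X : Type u} [TopologicalSpace X] [CompactSpace X] {h : X → ℝ}
    (hc : Continuous h) (h0 : ∀ y, 0 ≤ h y) {p : X} (hp : ∀ y, h y = 0 ↔ y = p) {V : Set X}
    (hV : IsOpen V) (hpV : p ∈ V) : ∃ n : ℕ, {y | h y < 1 / ((n : ℝ) + 1)} ⊆ V := by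
  rcases (Vᶜ).eq_empty_or_nonempty with he | hne
  · refine ⟨0, fun y _ => ?_⟩
    by_contra hy
    have : y ∈ Vᶜ := hy
    rw [he] at this
    exact this
  · obtain ⟨m, hm, hmin⟩ := (hV.isClosed_compl.isCompact).exists_isMinOn hne hc.continuousOn
    have hpos : 0 < h m := by
      refine lt_of_le_of_ne (h0 m) fun heq => ?_
      have : m = p := (hp m).1 heq.symm
      rw [this] at hm
      exact hm hpV
    obtain ⟨n, hn⟩ := exists_nat_one_div_lt hpos
    refine ⟨n, fun y hy => ?_⟩
    by_contra hyV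
    have h1 : h m ≤ h y := hmin hyV
    have h2 : h y < 1 / ((n : ℝ) + 1) := hy
    linarith

/-- Step 5.

PROOF. Let `T` be the set in question and suppose it is uncountable. By
`exists_mem_of_uncountable` with `x a := S.z false a`, `U a := {y | g (z false a) y < 1/(n+1)}`
there are `b < a` in `T` with `g (z false b) (z false a) < 1/(n+1)`. As `g (z false b)` is constant
on the fibre of `z false a` (`g_const`), also `g (z false b) (z true a) < 1/(n+1)`
(`z_pi`). The sets `{y | g (z true a) y < 1/(n'+1)}` are a base at `z true a` (compactness: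
`X` is compact, `g (z true a)` is continuous, nonnegative with the only zero `z true a`), so some
`n'` has `{y | g (z true a) y < 1/(n'+1)} ⊆ {y | g (z false b) y < 1/(n+1)} ∩
{y | g (z true a) y < 1/(n+1)}`. `Good k a` and `dens` give `e ∈ E`, `c e = k`, with
`FibIn π e.1` of that set. If `r` has colour `k` and `KillN r b n` then `F r < 1/3` on the fibre of
`e.1`, so `FibIn π e.1 {F r < 2/3}` and by `indep2` (for `r, e`) not `FibIn π r.1 {F e < 2/3}`; so
`R k n b ⊆ π '' {y | 2/3 ≤ F e y}`, a compact (closed) set; hence also the closure. If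
`KillN r a n` then `2/3 < F r` on the fibre of `e.1`, by `indep1` not
`FibIn π r.1 {1/3 < F e}`, so `closure (R k n a) ⊆ π '' {y | F e y ≤ 1/3}`. Since
`π (z false α')` belongs to both closures, there are `y, y'` in the fibre of `z false α'` with
`2/3 ≤ F e y` and `F e y' ≤ 1/3`; but `F e` is some `C i` (`F_mem`), constant on that fibre
(`C_const`): contradiction. -/
theorem Setup.countable_closure {X : Type u} [TopologicalSpace X] [CompactSpace X]
    [HereditarilyLindelofSpace X] {Ω : Type} [LinearOrder Ω] [WellFoundedLT Ω] {Ω₁ : Type}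
    (S : Setup X Ω Ω₁) (α' : Ω) (k n : ℕ) :
    {α | S.Good k α ∧ S.π (S.z false α') ∈ closure (S.R k n α)}.Countable := by
  by_contra hT
  have hn : (0 : ℝ) < 1 / ((n : ℝ) + 1) := by positivity
  obtain ⟨a, ⟨haG, haR⟩, b, ⟨_, hbR⟩, hba, hab⟩ := exists_mem_of_uncountable _ hT
    (fun a => S.z false a) (fun a => {y | S.g (S.z false a) y < 1 / ((n : ℝ) + 1)})
    (fun a => isOpen_lt (S.g_cont _) continuous_const)
    (fun a _ => by
      change S.g (S.z false a) (S.z false a) < 1 / ((n : ℝ) + 1)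
      rw [(S.g_zero _ _).2 rfl]
      exact hn)
  have hab' : S.g (S.z false b) (S.z false a) < 1 / ((n : ℝ) + 1) := hab
  have hab2 : S.g (S.z false b) (S.z true a) < 1 / ((n : ℝ) + 1) := by
    rw [S.g_const a b hba false (S.z true a) (S.z_pi a).symm]
    exact hab'
  set V : Set X := {y | S.g (S.z false b) y < 1 / ((n : ℝ) + 1)} ∩
    {y | S.g (S.z true a) y < 1 / ((n : ℝ) + 1)} with hVdef
  have hV : IsOpen V := (isOpen_lt (S.g_cont _) continuous_const).inter
    (isOpen_lt (S.g_cont _) continuous_const)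
  have hzV : S.z true a ∈ V := by
    refine ⟨hab2, ?_⟩
    change S.g (S.z true a) (S.z true a) < 1 / ((n : ℝ) + 1)
    rw [(S.g_zero _ _).2 rfl]
    exact hn
  obtain ⟨n', hn'⟩ := Count_base (S.g_cont (S.z true a)) (S.g_nonneg _) (S.g_zero _) hV hzV
  obtain ⟨r0, hr0, hr0k, hr0F⟩ := haG true n'
  obtain ⟨e, heE, hek, heF⟩ := S.dens V hV r0 hr0 fun y hy => hn' (hr0F y hy)
  have heP := S.E_pr e heE
  have hcl1 : closure (S.R k n b) ⊆ S.π '' {y | 2 / 3 ≤ S.F e y} := by
    refine closure_minimal ?_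
      (((isClosed_le continuous_const (S.F_cont e)).isCompact.image S.π_cont).isClosed)
    rintro m ⟨r, hr, hrk, hrK, rfl⟩
    by_contra hcon
    refine S.indep2 r e hr heP (by rw [hrk, hek, hr0k]) ?_ ?_
    · intro y hy
      have h1 := hrK.1 y (heF y hy).1
      change S.F r y < 2 / 3
      linarith
    · intro y hy
      change S.F e y < 2 / 3
      by_contra h2
      exact hcon ⟨y, not_lt.1 h2, hy⟩
  have hcl2 : closure (S.R k n a) ⊆ S.π '' {y | S.F e y ≤ 1 / 3} := by
    refine closure_minimal ?_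
      (((isClosed_le (S.F_cont e) continuous_const).isCompact.image S.π_cont).isClosed)
    rintro m ⟨r, hr, hrk, hrK, rfl⟩
    by_contra hcon
    refine S.indep1 r e hr heP (by rw [hrk, hek, hr0k]) ?_ ?_
    · intro y hy
      have h1 := hrK.2 y (heF y hy).2
      change 1 / 3 < S.F r y
      linarith
    · intro y hy
      change 1 / 3 < S.F e y
      by_contra h2
      exact hcon ⟨y, not_lt.1 h2, hy⟩
  obtain ⟨y, hy1, hy2⟩ := hcl1 hbR
  obtain ⟨y', hy1', hy2'⟩ := hcl2 haR
  obtain ⟨i, hi⟩ := S.F_mem e heE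
  have e1 := S.C_const i α' y hy2
  have e2 := S.C_const i α' y' hy2'
  rw [hi] at e1 e2
  have h1 : 2 / 3 ≤ S.F e y := hy1
  have h2 : S.F e y' ≤ 1 / 3 := hy1'
  linarith

end Pool.Agent.W_3b51b4_h27
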