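import Pool.Agent.W_3b51b4_h27.Oca

/-!
# Definitions for the MA + OCA theorem on perfectly normal compacta (MP_3b51b4_gt)

The combinatorial set-up (`Setup`) of the main argument.
-/

namespace Pool.Agent.W_3b51b4_h27

open Set Topology Cardinal

universe u

/-- `r` is a pair of distinct points with the same image under `π`. -/
def Pr {X : Type u} (π : X → ℕ → ℝ) (r : X × X) : Prop := r.1 ≠ r.2 ∧ π r.1 = π r.2

/-- The `π`-fibre of `z` is contained in `U`. -/
def FibIn {X : Type u} (π : X → ℕ → ℝ) (z : X) (U : Set X) : Prop := ∀ y, π y = π z → y ∈ U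

/-- The function `h` is constant on the `π`-fibre of `z`. -/
def ConstOn {X : Type u} (π : X → ℕ → ℝ) (h : X → ℝ) (z : X) : Prop :=
  ∀ y, π y = π z → h y = h z

/-- The data obtained from OCA and the chain construction.

* `g z` is a continuous function with zero set `{z}`;
* `F r`, for a pair `r = (u, v)` of distinct points, is a continuous function with value `0` at `u`
  and `1` at `v`;
* `π` is a continuous map to `ℝ ^ ℕ`;
* `c` is a colouring of pairs, `E` a countable dense set of pairs of every colour;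
* `z s α` (`s = false`, `s = true`) are the two points of the `α`-th pair;
* `C i`, `i : Ω₁`, are continuous functions, constant on the fibres of all `z s α`;
* `W s k n` is a set of witnesses for badness. -/
structure Setup (X : Type u) [TopologicalSpace X] (Ω : Type) [LinearOrder Ω] (Ω₁ : Type) where
  g : X → X → ℝ
  g_cont : ∀ z, Continuous (g z)
  g_nonneg : ∀ z y, 0 ≤ g z y
  g_zero : ∀ z y, g z y = 0 ↔ y = z
  F : X × X → X → ℝ
  F_cont : ∀ r, Continuous (F r)
  F_zero : ∀ r : X × X, r.1 ≠ r.2 → F r r.1 = 0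
  F_one : ∀ r : X × X, r.1 ≠ r.2 → F r r.2 = 1
  π : X → ℕ → ℝ
  π_cont : Continuous π
  c : X × X → ℕ
  E : Set (X × X)
  E_pr : ∀ e ∈ E, Pr π e
  indep1 : ∀ r r', Pr π r → Pr π r' → c r = c r' →
    FibIn π r'.1 {y | 1 / 3 < F r y} → FibIn π r.1 {y | 1 / 3 < F r' y} → False
  indep2 : ∀ r r', Pr π r → Pr π r' → c r = c r' →
    FibIn π r'.1 {y | F r y < 2 / 3} → FibIn π r.1 {y | F r' y < 2 / 3} → False
  dens : ∀ U : Set X, IsOpen U → ∀ r, Pr π r → FibIn π r.1 U →
    ∃ e ∈ E, c e = c r ∧ FibIn π e.1 U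
  z : Bool → Ω → X
  z_ne : ∀ α, z false α ≠ z true α
  z_pi : ∀ α, π (z false α) = π (z true α)
  C : Ω₁ → X → ℝ
  C_cont : ∀ i, Continuous (C i)
  C_const : ∀ i α, ConstOn π (C i) (z false α)
  F_mem : ∀ e ∈ E, ∃ i, C i = F e
  g_const : ∀ α β, β < α → ∀ s, ConstOn π (g (z s β)) (z false α)
  W : Bool → ℕ → ℕ → Set X
  W_count : ∀ (s : Bool) (k n : ℕ), (W s k n).Countable
  W_mem : ∀ (s : Bool) (k n : ℕ), ∀ w ∈ W s k n, ∃ i, C i = g w
  W_bad : ∀ (s : Bool) (k n : ℕ), ∀ w ∈ W s k n,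
    ¬ ∃ r, Pr π r ∧ c r = k ∧ FibIn π r.1 {y | g w y < 1 / ((n : ℝ) + 1)}
  W_cov : ∀ (s : Bool) (k n : ℕ) (α : Ω),
    (¬ ∃ r, Pr π r ∧ c r = k ∧ FibIn π r.1 {y | g (z s α) y < 1 / ((n : ℝ) + 1)}) →
    ∃ w ∈ W s k n, g w (z s α) < 1 / (2 * ((n : ℝ) + 1))

namespace Setup

variable {X : Type u} [TopologicalSpace X] {Ω : Type} [LinearOrder Ω] {Ω₁ : Type}
  (S : Setup X Ω Ω₁)

/-- `α` is `k`-good: every neighbourhood of each of the points `z s α` contains a whole fibre of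
a pair of colour `k`. -/
def Good (k : ℕ) (α : Ω) : Prop :=
  ∀ (s : Bool) (n : ℕ), ∃ r, Pr S.π r ∧ S.c r = k ∧ FibIn S.π r.1 {y | S.g (S.z s α) y < 1 / ((n : ℝ) + 1)}

/-- The pair `r` kills the `α`-th pair with index `n`. -/
def KillN (r : X × X) (α : Ω) (n : ℕ) : Prop :=
  (∀ y, S.g (S.z false α) y < 1 / ((n : ℝ) + 1) → S.F r y < 1 / 3) ∧
    (∀ y, S.g (S.z true α) y < 1 / ((n : ℝ) + 1) → 2 / 3 < S.F r y)

/-- The set of images of pairs of colour `k` which kill the `α`-th pair with index `n`. -/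
def R (k n : ℕ) (α : Ω) : Set (ℕ → ℝ) :=
  {m | ∃ r, Pr S.π r ∧ S.c r = k ∧ S.KillN r α n ∧ S.π r.1 = m}

end Setup

end Pool.Agent.W_3b51b4_h27
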