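import Mathlib

/-!
# Free sets for set mappings with countable values on a set of size bigger than `ℵ₁`
-/

namespace Pool.Agent.W_3b51b4_h27

open Set Cardinal

/-- free sets -/
def Free_fr {Ω : Type} (Φ : Ω → Set Ω) (H : Set Ω) : Prop :=
  ∀ a ∈ H, ∀ b ∈ H, a ≠ b → b ∉ Φ a

theorem Free_max {Ω : Type} (Φ : Ω → Set Ω) (T : Set Ω) :
    ∃ H : Set Ω, H ⊆ T ∧ Free_fr Φ H ∧ ∀ x ∈ T, x ∉ H → ∃ a ∈ H, x ∈ Φ a ∨ a ∈ Φ x := by
  obtain ⟨H, hH⟩ := zorn_subset {H : Set Ω | H ⊆ T ∧ Free_fr Φ H} (by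
    intro c hc hch
    refine ⟨⋃₀ c, ⟨?_, ?_⟩, fun s hs => subset_sUnion_of_mem hs⟩
    · exact sUnion_subset fun s hs => (hc hs).1
    · rintro a ⟨s, hs, has⟩ b ⟨t, ht, hbt⟩ hab
      rcases hch.total hs ht with h | h
      · exact (hc ht).2 a (h has) b hbt hab
      · exact (hc hs).2 a has b (h hbt) hab)
  refine ⟨H, hH.prop.1, hH.prop.2, fun x hx hxH => ?_⟩
  by_contra hcon
  push Not at hcon
  have hfree : insert x H ∈ {H : Set Ω | H ⊆ T ∧ Free_fr Φ H} := by
    refine ⟨insert_subset hx hH.prop.1, ?_⟩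
    rintro a ha b hb hab
    rcases ha with rfl | ha
    · rcases hb with rfl | hb
      · exact absurd rfl hab
      · exact (hcon b hb).2
    · rcases hb with rfl | hb
      · exact (hcon a ha).1
      · exact hH.prop.2 a ha b hb hab
  exact hxH (hH.le_of_ge hfree (subset_insert x H) (mem_insert x H))

/-- Hajnal type free set lemma: a set mapping with countable values on a set of size bigger than
`ℵ₁` has a free set of size `ℵ₁` (here: a free injective family indexed by a type of size `ℵ₁`).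

PROOF. Call `H ⊆ Ω` free if `b ∉ Φ a` for distinct `a, b ∈ H`. Suppose that there is no
uncountable free set (if there is one, it contains the range of an injection of `Ω₁`, because
`#Ω₁ = ℵ₁ ≤ #H`). By Zorn's lemma every `T ⊆ Ω` contains a maximal free subset, which is
countable. Let `Ω' := (ℵ₁ : Cardinal.{0}).ord.ToType`; by well-founded recursion on `ξ : Ω'` choose
a maximal free subset `H ξ` of `Ω \ ⋃ η < ξ, H η`; the `H ξ` are countable and pairwise disjoint.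
For every `x` outside `⋃ ξ, H ξ` and every `ξ`, maximality of `H ξ` gives `a ∈ H ξ` with
`x ∈ Φ a` or `a ∈ Φ x`. The set of all `x` with `x ∈ Φ a` for some `a ∈ ⋃ ξ, H ξ` has size at most
`ℵ₁ * ℵ₀ * ℵ₀ = ℵ₁`, as has `⋃ ξ, H ξ`; since `ℵ₁ < #Ω` there is `x` outside of both. Then for every
`ξ` there is `a ξ ∈ H ξ ∩ Φ x`; the `a ξ` are distinct, so `Φ x` is uncountable,
contradiction. -/
theorem free_set {Ω Ω₁ : Type} (hΩ : ℵ₁ < #Ω) (hΩ₁ : #Ω₁ = ℵ₁) (Φ : Ω → Set Ω)
    (hΦ : ∀ a, (Φ a).Countable) :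
    ∃ e : Ω₁ → Ω, Function.Injective e ∧ ∀ a b, a ≠ b → e b ∉ Φ (e a) := by
  classical
  by_cases hbig : ∃ H : Set Ω, Free_fr Φ H ∧ ℵ₁ ≤ #H
  · obtain ⟨H, hH, hc⟩ := hbig
    rw [← hΩ₁] at hc
    obtain ⟨e⟩ := hc
    refine ⟨fun a => (e a : Ω), fun a b hab => e.injective (Subtype.ext hab), ?_⟩
    intro a b hab
    exact hH _ (e a).2 _ (e b).2 fun h => hab (e.injective (Subtype.ext h))
  · exfalso
    push Not at hbig
    choose M hM1 hM2 hM3 using Free_max Φ
    have hMc : ∀ T, (M T).Countable := by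
      intro T
      exact Cardinal.le_aleph0_iff_set_countable.1 (Cardinal.lt_aleph_one_iff.1 (hbig _ (hM2 T)))
    obtain ⟨Ω', hlin, hwf, hcard⟩ : ∃ (Ω' : Type) (_ : LinearOrder Ω') (_ : WellFoundedLT Ω'),
        #Ω' = ℵ₁ :=
      ⟨(ℵ₁ : Cardinal.{0}).ord.ToType, inferInstance, inferInstance, Cardinal.mk_ord_toType _⟩
    obtain ⟨H, hH⟩ : ∃ H : Ω' → Set Ω, ∀ ξ, H ξ = M {x | ∀ η < ξ, x ∉ H η} := by
      refine ⟨(wellFounded_lt (α := Ω')).fix fun ξ rec => M {x | ∀ η, ∀ h : η < ξ, x ∉ rec η h}, ?_⟩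
      intro ξ
      rw [WellFounded.fix_eq]
    have hHc : ∀ ξ, (H ξ).Countable := by
      intro ξ
      rw [hH]
      exact hMc _
    obtain ⟨U, hU⟩ : ∃ U, U = ⋃ ξ, H ξ := ⟨_, rfl⟩
    obtain ⟨U', hU'⟩ : ∃ U', U' = ⋃ a : U, Φ (a : Ω) := ⟨_, rfl⟩
    have hUc : #U ≤ ℵ₁ := by
      rw [hU]
      refine (Cardinal.mk_iUnion_le _).trans ?_
      rw [hcard]
      refine (mul_le_mul_right (ciSup_le' fun ξ => ?_ : _ ≤ ℵ₀) _).trans ?_
      · exact Cardinal.mk_le_aleph0_iff.2 (hHc ξ).to_subtype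
      · rw [Cardinal.mul_eq_left (Cardinal.aleph0_le_aleph 1) (Cardinal.aleph0_le_aleph 1)
          Cardinal.aleph0_ne_zero]
    have hU'c : #U' ≤ ℵ₁ := by
      rw [hU']
      refine (Cardinal.mk_iUnion_le _).trans ?_
      refine (mul_le_mul' hUc (ciSup_le' fun a => ?_ : _ ≤ ℵ₀)).trans ?_
      · exact Cardinal.mk_le_aleph0_iff.2 (hΦ a).to_subtype
      · rw [Cardinal.mul_eq_left (Cardinal.aleph0_le_aleph 1) (Cardinal.aleph0_le_aleph 1)
          Cardinal.aleph0_ne_zero]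
    have hx : ∃ x, x ∉ U ∪ U' := by
      by_contra hcon
      push Not at hcon
      have huniv : U ∪ U' = Set.univ := eq_univ_of_forall hcon
      have h1 : #(U ∪ U' : Set Ω) ≤ ℵ₁ := by
        refine (Cardinal.mk_union_le U U').trans ((add_le_add hUc hU'c).trans ?_)
        rw [Cardinal.add_eq_self (Cardinal.aleph0_le_aleph 1)]
      rw [huniv, Cardinal.mk_univ] at h1
      exact absurd hΩ (not_lt.2 h1)
    obtain ⟨x, hx⟩ := hx
    have hxU : x ∉ U := fun h => hx (Or.inl h)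
    have hxU' : x ∉ U' := fun h => hx (Or.inr h)
    have hsub : ∀ ξ, H ξ ⊆ {y | ∀ η < ξ, y ∉ H η} := by
      intro ξ
      conv_lhs => rw [hH]
      exact hM1 _
    have ha : ∀ ξ, ∃ a ∈ H ξ, a ∈ Φ x := by
      intro ξ
      have hxξ : ∀ η, x ∉ H η := fun η h => hxU (by rw [hU]; exact mem_iUnion.2 ⟨η, h⟩)
      have h1 := hM3 {y | ∀ η < ξ, y ∉ H η} x (fun η _ => hxξ η) (by
        rw [← hH]
        exact hxξ ξ)
      rw [← hH] at h1
      obtain ⟨a, ha, hor⟩ := h1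
      rcases hor with h | h
      · exfalso
        apply hxU'
        rw [hU']
        exact mem_iUnion.2 ⟨⟨a, by rw [hU]; exact mem_iUnion.2 ⟨ξ, ha⟩⟩, h⟩
      · exact ⟨a, ha, h⟩
    choose a haH haΦ using ha
    have hinj : Function.Injective fun ξ => (⟨a ξ, haΦ ξ⟩ : Φ x) := by
      intro ξ η h
      have h1 : a ξ = a η := congrArg Subtype.val h
      rcases lt_trichotomy ξ η with h2 | h2 | h2
      · exfalso
        have h3 := hsub η (haH η) ξ h2
        rw [← h1] at h3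
        exact h3 (haH ξ)
      · exact h2
      · exfalso
        have h3 := hsub ξ (haH ξ) η h2
        rw [h1] at h3
        exact h3 (haH η)
    have h1 := Cardinal.mk_le_of_injective hinj
    rw [hcard] at h1
    have h2 : #(Φ x) ≤ ℵ₀ := Cardinal.mk_le_aleph0_iff.2 (hΦ x).to_subtype
    exact absurd (h1.trans h2) (not_le.2 Cardinal.aleph0_lt_aleph_one)

end Pool.Agent.W_3b51b4_h27
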