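import Pool.Agent.W_3b51b4_h27.GenDefs

/-!
# Step 7: dense sets
-/

namespace Pool.Agent.W_3b51b4_h27.Gen

open Set Topology Cardinal

variable {M : Type} [MetricSpace M] {B : Type} (D : Dat M B)

/-- One can extend the list to any length, make the neighbourhoods small and disjoint from a given
closed set `Z` which contains no `p a`.

PROOF. Let `F := p.F`. Append to `p.s` the numbers `F.sup (idx k)` for
`p.s.length ≤ k < max n p.s.length`, let `N` be the new length, and apply `refine_exists`. -/
theorem dense_shrink (p : Cond D) (n : ℕ) (ε : ℝ) (hε : 0 < ε) (Z : Set M) (hZc : IsClosed Z)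
    (hZ : ∀ a, D.p a ∉ Z) :
    ∃ q : Cond D, q ≤ p ∧ n ≤ q.s.length ∧
      (∀ v ∈ q.V, ∀ x ∈ closure (D.U v), ∀ y ∈ closure (D.U v), dist x y < ε) ∧
      (∀ v ∈ q.V, Disjoint (closure (D.U v)) Z) := by
  classical
  obtain ⟨V', h1, h2, h3, h4, h5⟩ := refine_exists D p.F p.V p.cov (max n p.s.length) ε hε Z hZc
    (fun a _ => hZ a)
  have hlen : (p.s ++ (List.range (max n p.s.length - p.s.length)).map
      (fun j => p.F.sup (D.idx (p.s.length + j)))).length = max n p.s.length := by
    rw [List.length_append, List.length_map, List.length_range]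
    omega
  refine ⟨{ F := p.F
            V := V'
            s := p.s ++ (List.range (max n p.s.length - p.s.length)).map
              (fun j => p.F.sup (D.idx (p.s.length + j)))
            ne := p.ne
            cov := h1
            sep := ?_
            bd := ?_ }, ⟨Finset.Subset.refl _, h2, List.prefix_append _ _⟩, ?_, h3, h4⟩
  · intro a ha v hv hav k hk hg
    rw [hlen] at hk ⊢
    exact h5 a ha v hv hav k hk hg
  · intro a ha k hk
    by_cases hkp : k < p.s.length
    · rw [List.getElem_append_left hkp]
      exact p.bd a ha k hkp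
    · rw [List.getElem_append_right (by omega), List.getElem_map, List.getElem_range]
      have hk2 : p.s.length + (k - p.s.length) = k := by omega
      rw [hk2]
      exact Finset.le_sup (f := D.idx k) ha
  · show n ≤ (p.s ++ (List.range (max n p.s.length - p.s.length)).map
      (fun j => p.F.sup (D.idx (p.s.length + j)))).length
    rw [hlen]
    exact le_max_left _ _

/-- One can add a new index beyond any given one.

PROOF. Let `a ∈ p.F` and `v ∈ p.V` with `p a ∈ U v`. By `thick` and `bd` the set of all `b` with
`p b ∈ U v` and `idx k b ≤ s[k]` for all `k < s.length` is uncountable, so (as `Iic ξ` is countable)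
contains some `b > ξ`. Let `F := insert b p.F`, apply `refine_exists` with `V := p.V`,
`N := p.s.length`, `ε := 1`, `Z := ∅`, and keep the list `p.s`. -/
theorem dense_beyond [LinearOrder B] (hB : ∀ a : B, (Iic a).Countable) (p : Cond D) (ξ : B) :
    ∃ q : Cond D, q ≤ p ∧ ∃ b ∈ q.F, ξ < b := by
  classical
  obtain ⟨a, ha⟩ := p.ne
  obtain ⟨v, hv, hav⟩ := p.cov a ha
  have ht := D.thick v p.s a hav (p.bd a ha)
  have hex : ∃ b, (D.p b ∈ D.U v ∧ ∀ k (h : k < p.s.length), D.idx k b ≤ p.s[k]) ∧ ξ < b := by
    by_contra hcon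
    apply ht
    refine (hB ξ).mono ?_
    intro b hb
    by_contra hbξ
    exact hcon ⟨b, hb, not_le.1 hbξ⟩
  obtain ⟨b, ⟨hbv, hbd⟩, hξ⟩ := hex
  have hcov : ∀ a' ∈ insert b p.F, ∃ w ∈ p.V, D.p a' ∈ D.U w := by
    intro a' ha'
    rcases Finset.mem_insert.1 ha' with rfl | h
    · exact ⟨v, hv, hbv⟩
    · exact p.cov a' h
  obtain ⟨V', h1, h2, -, -, h5⟩ := refine_exists D (insert b p.F) p.V hcov p.s.length 1 one_pos ∅
    isClosed_empty (fun a _ => Set.notMem_empty _)
  refine ⟨{ F := insert b p.F
            V := V'
            s := p.s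
            ne := ⟨b, Finset.mem_insert_self _ _⟩
            cov := h1
            sep := h5
            bd := ?_ }, ⟨Finset.subset_insert _ _, h2, List.prefix_refl _⟩, b,
            Finset.mem_insert_self _ _, hξ⟩
  intro a' ha' k hk
  rcases Finset.mem_insert.1 ha' with rfl | h
  · exact hbd k hk
  · exact p.bd a' h k hk

end Pool.Agent.W_3b51b4_h27.Gen
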