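import Pool.Agent.W_3b51b4_h27.GenCcc
import Pool.Agent.W_3b51b4_h27.GenDense

/-!
# Step 7: the generic set
-/

namespace Pool.Agent.W_3b51b4_h27.Gen

open Set Topology Cardinal
open Pool.Agent.W_MP_3b51b4_gt

theorem GenFin_nonempty {M : Type} [MetricSpace M] {B : Type} (D : Dat M B) (a : B) :
    Nonempty (Cond D) := by
  obtain ⟨v, hv, -⟩ := D.U_base (D.p a) univ isOpen_univ (mem_univ _)
  refine ⟨{ F := {a}
            V := {v}
            s := []
            ne := ⟨a, Finset.mem_singleton_self a⟩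
            cov := ?_
            sep := ?_
            bd := ?_ }⟩
  · intro b hb
    rw [Finset.mem_singleton] at hb
    subst hb
    exact ⟨v, Finset.mem_singleton_self v, hv⟩
  · intro b _ w _ _ k hk _
    exact absurd hk (Nat.not_lt_zero _)
  · intro b _ k hk
    exact absurd hk (Nat.not_lt_zero _)

/-- the dense sets -/
def GenFin_E {M : Type} [MetricSpace M] {B : Type} [LinearOrder B] (D : Dat M B) {J : Type}
    (Z : J → Set M) : ℕ ⊕ ℕ ⊕ J ⊕ B → Set (Cond D)
  | Sum.inl n => {q | n ≤ q.s.length}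
  | Sum.inr (Sum.inl n) => {q | ∀ v ∈ q.V, ∀ x ∈ closure (D.U v), ∀ y ∈ closure (D.U v),
      dist x y < 1 / ((n : ℝ) + 1)}
  | Sum.inr (Sum.inr (Sum.inl j)) => {q | ∀ v ∈ q.V, Disjoint (closure (D.U v)) (Z j)}
  | Sum.inr (Sum.inr (Sum.inr ξ)) => {q | ∃ b ∈ q.F, ξ < b}

theorem GenFin_dense {M : Type} [MetricSpace M] {B : Type} [LinearOrder B]
    (hB : ∀ a : B, (Iic a).Countable) (D : Dat M B) {J : Type}
    (Z : J → Set M) (hZc : ∀ j, IsClosed (Z j)) (hZ : ∀ j a, D.p a ∉ Z j)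
    (i : ℕ ⊕ ℕ ⊕ J ⊕ B) (p : Cond D) : ∃ q ∈ GenFin_E D Z i, q ≤ p := by
  rcases i with n | n | j | ξ
  · obtain ⟨q, h1, h2, -, -⟩ := dense_shrink D p n 1 one_pos ∅ isClosed_empty
      (fun _ => Set.notMem_empty _)
    exact ⟨q, h2, h1⟩
  · obtain ⟨q, h1, -, h3, -⟩ := dense_shrink D p 0 (1 / ((n : ℝ) + 1)) (by positivity) ∅
      isClosed_empty (fun _ => Set.notMem_empty _)
    exact ⟨q, h3, h1⟩
  · obtain ⟨q, h1, -, -, h4⟩ := dense_shrink D p 0 1 one_pos (Z j) (hZc j) (hZ j)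
    exact ⟨q, h4, h1⟩
  · obtain ⟨q, h1, h2⟩ := dense_beyond D hB p ξ
    exact ⟨q, h2, h1⟩

theorem GenFin_card {B J : Type} (hBc : #B ≤ ℵ₁) (hJ : #J ≤ ℵ₁) :
    #(ℕ ⊕ ℕ ⊕ J ⊕ B) ≤ ℵ₁ := by
  have h0 : ℵ₀ ≤ ℵ₁ := Cardinal.aleph0_le_aleph 1
  have hN : #ℕ ≤ ℵ₁ := by rw [Cardinal.mk_nat]; exact h0
  rw [← Cardinal.add_def, ← Cardinal.add_def, ← Cardinal.add_def]
  exact Cardinal.add_le_of_le h0 hN (Cardinal.add_le_of_le h0 hN
    (Cardinal.add_le_of_le h0 hJ hBc))

/-- the closures over a condition of the filter cover the closure of the generic set -/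
theorem GenFin_cover {M : Type} [MetricSpace M] {B : Type} {D : Dat M B} {G : Set (Cond D)}
    (hdir : ∀ p ∈ G, ∀ q ∈ G, ∃ r ∈ G, r ≤ p ∧ r ≤ q) {q : Cond D} (hq : q ∈ G) {m : M}
    (hm : m ∈ closure (D.p '' {a | ∃ q ∈ G, a ∈ q.F})) : ∃ v ∈ q.V, m ∈ closure (D.U v) := by
  have hcl : IsClosed (⋃ v ∈ q.V, closure (D.U v)) :=
    Set.Finite.isClosed_biUnion (Finset.finite_toSet q.V) fun v _ => isClosed_closure
  have hsub : D.p '' {a | ∃ q ∈ G, a ∈ q.F} ⊆ ⋃ v ∈ q.V, closure (D.U v) := by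
    rintro x ⟨a, ⟨q', hq', ha⟩, rfl⟩
    obtain ⟨r, hr, hrq, hrq'⟩ := hdir q hq q' hq'
    obtain ⟨v, hv, hav⟩ := r.cov a (hrq'.1 ha)
    obtain ⟨w, hw, hvw⟩ := hrq.2.1 v hv
    exact mem_biUnion hw (subset_closure (hvw hav))
  have h := closure_minimal hsub hcl hm
  obtain ⟨v, hv, h2⟩ := mem_iUnion₂.1 h
  exact ⟨v, hv, h2⟩

/-- The generic set for thick data.

PROOF. `Cond D` is nonempty: take `a : B`, by `U_base` some `v` with `p a ∈ U v`, the condition
`({a}, {v}, [])`. Apply `MA ℵ₁` (ccc by `ccc`) to the following at most `ℵ₁` dense sets: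
`{q | n ≤ q.s.length}`, `{q | all closures have diameter < 1/(n+1)}`, `n : ℕ`;
`{q | ∀ v ∈ q.V, Disjoint (closure (U v)) (Z j)}`, `j : J`; `{q | ∃ b ∈ q.F, ξ < b}`, `ξ : B`.
Let `G` be the filter and `B' := {a | ∃ q ∈ G, a ∈ q.F}`.
(a) `B'` is uncountable: otherwise `⋃ b ∈ B', Iic b` is countable, hence there is `ξ` outside, i.e.
`b < ξ` for all `b ∈ B'`; contradiction to the last family.
(b) For `q ∈ G`, `a ∈ B'`: `p a ∈ ⋃ v ∈ q.V, U v` (take `r ∈ G` below `q` and a condition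
containing `a`; use `cov` and the definition of the order). Therefore
`closure (p '' B') ⊆ ⋃ v ∈ q.V, closure (U v)` for every `q ∈ G` (finite union).
(c) Disjointness from `Z j`: use `q ∈ G` in the third dense set and (b).
(d) bound for `idx k`: let `q ∈ G` with `k < q.s.length`, `N := q.s[k]`. For `a ∈ B'` choose `r ∈ G`
below `q` with `a ∈ r.F`; `idx k a ≤ r.s[k] = q.s[k]` by `bd` and the prefix relation.
(e) Let `a ∈ B'`, `good k a`, `m ∈ closure (p '' B')`, `m ≠ p a`. Choose `q ∈ G` with `a ∈ q.F`,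
`q.s.length > k`, `q.s.length ≥ n` and all closures of diameter `< dist m (p a)` (a common lower
bound in `G` of four conditions; note that the diameter property passes to stronger conditions
because every `U v` is contained in some `U w`, and lengths of lists only grow). By (b)
`m ∈ closure (U v)` for some `v ∈ q.V`; `p a ∉ closure (U v)` because of the diameter, so by `sep`
`m ∉ R k q.s.length a ⊇ R k n a`. -/
theorem generic_thick (hMA : MA ℵ₁) {M : Type} [MetricSpace M] {B : Type} [LinearOrder B]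
    (hB : ∀ a : B, (Iic a).Countable) (hBu : ¬ Countable B) (hBc : #B ≤ ℵ₁) (D : Dat M B)
    (hR : ∀ k n n' a, n ≤ n' → D.R k n a ⊆ D.R k n' a)
    {J : Type} (hJ : #J ≤ ℵ₁) (Z : J → Set M) (hZc : ∀ j, IsClosed (Z j))
    (hZ : ∀ j a, D.p a ∉ Z j) :
    ∃ B' : Set B, ¬ B'.Countable ∧ (∀ j, Disjoint (closure (D.p '' B')) (Z j)) ∧
      (∀ k, ∃ N, ∀ a ∈ B', D.idx k a ≤ N) ∧
      (∀ k n, ∀ a ∈ B', D.good k a → ∀ m ∈ closure (D.p '' B'), m ≠ D.p a → m ∉ D.R k n a) := by
  have hne : Nonempty B := by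
    by_contra h
    rw [not_nonempty_iff] at h
    exact hBu inferInstance
  obtain ⟨a0⟩ := hne

  have hMAn : Nonempty (Cond D) := GenFin_nonempty D a0
  obtain ⟨G, hGne, hup, hdir, hmeet⟩ := hMA (Cond D) (ccc D) (Set.range (GenFin_E D Z))
    (Cardinal.mk_range_le.trans (GenFin_card hBc hJ)) (by
      rintro E ⟨i, rfl⟩ p
      exact GenFin_dense hB D Z hZc hZ i p)
  have hmeet' : ∀ i, ∃ q ∈ G, q ∈ GenFin_E D Z i := by
    intro i
    obtain ⟨q, h1, h2⟩ := hmeet _ ⟨i, rfl⟩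
    exact ⟨q, h1, h2⟩
  refine ⟨{a | ∃ q ∈ G, a ∈ q.F}, ?_, ?_, ?_, ?_⟩
  · intro hc
    have hu : (⋃ b ∈ {a | ∃ q ∈ G, a ∈ q.F}, Iic b).Countable := hc.biUnion fun b _ => hB b
    have hex : ∃ ξ, ξ ∉ ⋃ b ∈ {a | ∃ q ∈ G, a ∈ q.F}, Iic b := by
      by_contra hcon
      apply hBu
      rw [← Set.countable_univ_iff]
      refine hu.mono fun x _ => ?_
      by_contra hx
      exact hcon ⟨x, hx⟩
    obtain ⟨ξ, hξ⟩ := hex
    obtain ⟨q, hq, b, hb, hlt⟩ := hmeet' (Sum.inr (Sum.inr (Sum.inr ξ)))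
    exact hξ (mem_biUnion (show b ∈ {a | ∃ q ∈ G, a ∈ q.F} from ⟨q, hq, hb⟩) hlt.le)
  · intro j
    obtain ⟨q, hq, hd⟩ := hmeet' (Sum.inr (Sum.inr (Sum.inl j)))
    refine Set.disjoint_left.2 fun m hm hmZ => ?_
    obtain ⟨v, hv, hmv⟩ := GenFin_cover hdir hq hm
    exact Set.disjoint_left.1 (hd v hv) hmv hmZ
  · intro k
    obtain ⟨q, hq, hl⟩ := hmeet' (Sum.inl (k + 1))
    have hk : k < q.s.length := hl
    refine ⟨q.s[k], ?_⟩
    rintro a ⟨q', hq', ha⟩
    obtain ⟨r, hr, hrq, hrq'⟩ := hdir q hq q' hq'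
    have hkr : k < r.s.length := lt_of_lt_of_le hk hrq.2.2.length_le
    have h1 := r.bd a (hrq'.1 ha) k hkr
    have h2 : q.s[k] = r.s[k] := List.IsPrefix.getElem hrq.2.2 hk
    rw [h2]
    exact h1
  · rintro k n a ⟨q0, hq0, ha⟩ hgood m hm hne hmR
    have hpos : 0 < dist m (D.p a) := dist_pos.2 hne
    obtain ⟨i, hi⟩ := exists_nat_one_div_lt hpos
    obtain ⟨q1, hq1, hl1⟩ := hmeet' (Sum.inl (k + 1))
    obtain ⟨q2, hq2, hl2⟩ := hmeet' (Sum.inl n)
    obtain ⟨q3, hq3, hd3⟩ := hmeet' (Sum.inr (Sum.inl i))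
    obtain ⟨r1, hr1, h10, h11⟩ := hdir q0 hq0 q1 hq1
    obtain ⟨r2, hr2, h22, h23⟩ := hdir q2 hq2 q3 hq3
    obtain ⟨r, hr, hra, hrb⟩ := hdir r1 hr1 r2 hr2
    have har : a ∈ r.F := hra.1 (h10.1 ha)
    have hkr : k < r.s.length :=
      lt_of_lt_of_le (show k < q1.s.length from hl1) ((h11.2.2.trans hra.2.2).length_le)
    have hnr : n ≤ r.s.length :=
      le_trans (show n ≤ q2.s.length from hl2) ((h22.2.2.trans hrb.2.2).length_le)
    obtain ⟨v, hv, hmv⟩ := GenFin_cover hdir hr hm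
    have hpv : D.p a ∉ closure (D.U v) := by
      intro hp
      obtain ⟨w, hw, hvw⟩ := (le_trans hrb h23).2.1 v hv
      have h := hd3 w hw m (closure_mono hvw hmv) (D.p a) (closure_mono hvw hp)
      linarith
    exact Set.disjoint_left.1 (r.sep a har v hv hpv k hkr hgood) hmv (hR k n _ a hnr hmR)

/-- The generic set.

PROOF. Choose a countable base `U : ℕ → Set M` of `M` (`TopologicalSpace.exists_countable_basis`,
enumerated; `U_base` by regularity: first a closed neighbourhood inside `V`). Call `a : B` thin if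
for some `v` and some list `s` with `p a ∈ U v` and `idx k a ≤ s[k]` for all `k < s.length` the set
`{b | p b ∈ U v ∧ ∀ k < s.length, idx k b ≤ s[k]}` is countable; the set of thin `a` is countable
(countable union over `v, s`). Apply `generic_thick` to the subtype `B₁` of the elements which are
not thin (for `thick`: an uncountable subset of `B` minus countably many elements is
uncountable, and pull back to the subtype), and take the image of the resulting set in `B`. -/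
theorem generic (hMA : MA ℵ₁) {M : Type} [MetricSpace M] [SecondCountableTopology M]
    {B : Type} [LinearOrder B] (hB : ∀ a : B, (Iic a).Countable) (hBu : ¬ Countable B)
    (hBc : #B ≤ ℵ₁) (p : B → M) (good : ℕ → B → Prop) (R : ℕ → ℕ → B → Set M)
    (hR : ∀ k n n' a, n ≤ n' → R k n a ⊆ R k n' a)
    (hfree : ∀ a b, a ≠ b → ∀ k n, good k b → p a ∉ closure (R k n b)) (idx : ℕ → B → ℕ)
    {J : Type} (hJ : #J ≤ ℵ₁) (Z : J → Set M) (hZc : ∀ j, IsClosed (Z j))
    (hZ : ∀ j a, p a ∉ Z j) :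
    ∃ B' : Set B, ¬ B'.Countable ∧ (∀ j, Disjoint (closure (p '' B')) (Z j)) ∧
      (∀ k, ∃ N, ∀ a ∈ B', idx k a ≤ N) ∧
      (∀ k n, ∀ a ∈ B', good k a → ∀ m ∈ closure (p '' B'), m ≠ p a → m ∉ R k n a) := by
  classical
  have hne : Nonempty B := by
    by_contra h
    rw [not_nonempty_iff] at h
    exact hBu inferInstance
  obtain ⟨a0⟩ := hne
  obtain ⟨b, hbc, -, hbb⟩ := TopologicalSpace.exists_countable_basis M
  have hbne : b.Nonempty := by
    obtain ⟨u, hu, -⟩ := hbb.exists_subset_of_mem_open (mem_univ (p a0)) isOpen_univ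
    exact ⟨u, hu⟩
  obtain ⟨U, hU⟩ := hbc.exists_eq_range hbne
  have hUo : ∀ n, IsOpen (U n) := fun n => hbb.isOpen (hU ▸ mem_range_self n)
  have hUb : ∀ (x : M) (V : Set M), IsOpen V → x ∈ V → ∃ n, x ∈ U n ∧ closure (U n) ⊆ V := by
    intro x V hV hx
    obtain ⟨t, ht, htc, htV⟩ := exists_mem_nhds_isClosed_subset (hV.mem_nhds hx)
    obtain ⟨u, hu, hxu, hut⟩ := hbb.exists_subset_of_mem_open (mem_interior_iff_mem_nhds.2 ht)
      isOpen_interior
    rw [hU] at hu
    obtain ⟨n, rfl⟩ := hu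
    exact ⟨n, hxu, (closure_minimal (hut.trans interior_subset) htc).trans htV⟩
  let S : ℕ → List ℕ → Set B := fun v s => {b | p b ∈ U v ∧ ∀ k (h : k < s.length), idx k b ≤ s[k]}
  let T : Set B := {a | ∃ v s, a ∈ S v s ∧ (S v s).Countable}
  have hT : T.Countable := by
    have h1 : T ⊆ ⋃ vs : ℕ × List ℕ, {a | a ∈ S vs.1 vs.2 ∧ (S vs.1 vs.2).Countable} := by
      rintro a ⟨v, s, h2, h3⟩
      exact mem_iUnion.2 ⟨(v, s), h2, h3⟩
    refine (Set.countable_iUnion fun vs => ?_).mono h1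
    by_cases h2 : (S vs.1 vs.2).Countable
    · exact h2.mono fun a ha => ha.1
    · refine Set.Countable.mono (fun a ha => absurd ha.2 h2) Set.countable_empty
  have hval : Function.Injective (Subtype.val : {a : B // a ∉ T} → B) := Subtype.val_injective
  have hB1 : ∀ a : {a : B // a ∉ T}, (Iic a).Countable := by
    intro a
    refine ((hB a.1).preimage_of_injOn (f := Subtype.val) hval.injOn).mono ?_
    intro x hx
    exact hx
  have hB1u : ¬ Countable {a : B // a ∉ T} := by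
    intro hc
    apply hBu
    rw [← Set.countable_univ_iff]
    have h2 : ((Subtype.val : {a : B // a ∉ T} → B) '' univ ∪ T).Countable :=
      (Set.countable_univ.image _).union hT
    refine h2.mono fun x _ => ?_
    by_cases hx : x ∈ T
    · exact Or.inr hx
    · exact Or.inl ⟨⟨x, hx⟩, mem_univ _, rfl⟩
  have hB1c : #{a : B // a ∉ T} ≤ ℵ₁ := (Cardinal.mk_subtype_le _).trans hBc
  let D : Dat M {a : B // a ∉ T} :=
    { U := U
      U_open := hUo
      U_base := hUb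
      p := fun a => p a.1
      good := fun k a => good k a.1
      R := fun k n a => R k n a.1
      free := fun a b hab k n hg => hfree a.1 b.1 (fun h => hab (Subtype.ext h)) k n hg
      idx := fun k a => idx k a.1
      thick := by
        intro v s a hav hbd hc
        apply a.2
        refine ⟨v, s, ⟨hav, hbd⟩, ?_⟩
        refine ((hc.image Subtype.val).union hT).mono fun x hx => ?_
        by_cases hxT : x ∈ T
        · exact Or.inr hxT
        · exact Or.inl ⟨⟨x, hxT⟩, hx, rfl⟩ }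
  obtain ⟨B', h1, h2, h3, h4⟩ := generic_thick hMA hB1 hB1u hB1c D
    (fun k n n' a h => hR k n n' a.1 h) hJ Z hZc (fun j a => hZ j a.1)
  have himg : p '' (Subtype.val '' B') = D.p '' B' := by
    rw [Set.image_image]
  refine ⟨Subtype.val '' B', ?_, ?_, ?_, ?_⟩
  · intro hc
    exact h1 (Set.countable_of_injective_of_countable_image hval.injOn hc)
  · intro j
    rw [himg]
    exact h2 j
  · intro k
    obtain ⟨N, hN⟩ := h3 k
    refine ⟨N, ?_⟩
    rintro a ⟨a', ha', rfl⟩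
    exact hN a' ha'
  · rintro k n a ⟨a', ha', rfl⟩ hg m hm hne
    rw [himg] at hm
    exact h4 k n a' ha' hg m hm hne

end Pool.Agent.W_3b51b4_h27.Gen
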