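import Pool.Agent.W_3b51b4_h27.Count
import Pool.Agent.W_3b51b4_h27.Free
import Pool.Agent.W_3b51b4_h27.GenFin
import Pool.Agent.W_3b51b4_h27.Chain

/-!
# Step 8: an uncountable closed discrete set of pairs
-/

namespace Pool.Agent.W_3b51b4_h27

open Set Topology Cardinal
open Pool.Agent.W_MP_3b51b4_gt

universe u

variable {X : Type u} [TopologicalSpace X] {Ω : Type} [LinearOrder Ω]

theorem Discrete_inj_lt {Ω₁ : Type} (S : Setup X Ω Ω₁) {a b : Ω} (hba : b < a)
    (h : S.π (S.z false b) = S.π (S.z false a)) : False := by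
  have h1 := S.g_const a b hba false
  have h2 : S.g (S.z false b) (S.z false b) = S.g (S.z false b) (S.z false a) := h1 _ h
  have h3 : S.g (S.z false b) (S.z true b) = S.g (S.z false b) (S.z false a) :=
    h1 _ ((S.z_pi b).symm.trans h)
  have h4 : S.g (S.z false b) (S.z false b) = 0 := (S.g_zero _ _).2 rfl
  have h5 : S.g (S.z false b) (S.z true b) = 0 := by rw [h3, ← h2, h4]
  exact S.z_ne b ((S.g_zero _ _).1 h5).symm

/-- The images of the pairs are distinct.

PROOF. Let `b < a` and `π (z false b) = π (z false a)`. By `g_const` (`s = false`) the function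
`g (z false b)` has the same value at `z false b`, at `z true b` (`z_pi`) and at `z false a`; this
value is `0`, so `z true b = z false b` by `g_zero`, contradiction to `z_ne`. -/
theorem Setup.inj {Ω₁ : Type} (S : Setup X Ω Ω₁) :
    Function.Injective fun a => S.π (S.z false a) := by
  intro a b h
  rcases lt_trichotomy a b with hlt | heq | hgt
  · exact (Discrete_inj_lt S hlt h).elim
  · exact heq
  · exact (Discrete_inj_lt S hgt h.symm).elim

/-- A pair of colour `k` on whose fibre all functions `C i` are constant has a neighbourhood without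
`a` with `g w (z s a) < 1/(2*(n+1))`, for every witness `w ∈ W s k n`.

PROOF. Let `x := r.1` if `s = false`, `x := r.2` if `s = true`; then `π x = π r.1`. If
`g w x < 1/(n+1)` then, as `g w` is some `C i` and constant on the fibre of `r.1`,
`FibIn π r.1 {y | g w y < 1/(n+1)}`, contradiction to `W_bad`. So `1/(n+1) ≤ g w x` and by
continuity `{q | 1/(2*(n+1)) < g w q.1}` (resp. `q.2`) is a neighbourhood of `r`. -/
theorem Setup.witness_nhds {Ω₁ : Type} (S : Setup X Ω Ω₁) (r : X × X) (hr : Pr S.π r)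
    (hconst : ∀ i, ConstOn S.π (S.C i) r.1) (s : Bool) (n : ℕ) (w : X)
    (hw : w ∈ S.W s (S.c r) n) :
    ∃ U ∈ 𝓝 r, ∀ a, (S.z false a, S.z true a) ∈ U →
      ¬ S.g w (S.z s a) < 1 / (2 * ((n : ℝ) + 1)) := by
  obtain ⟨i, hi⟩ := S.W_mem s (S.c r) n w hw
  have hlt : 1 / (2 * ((n : ℝ) + 1)) < 1 / ((n : ℝ) + 1) := by
    apply one_div_lt_one_div_of_lt
    · positivity
    · have : (0 : ℝ) ≤ n := Nat.cast_nonneg n
      linarith
  have key : ∀ x : X, S.π x = S.π r.1 → 1 / ((n : ℝ) + 1) ≤ S.g w x := by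
    intro x hx
    by_contra hcon
    push Not at hcon
    refine S.W_bad s (S.c r) n w hw ⟨r, hr, rfl, fun y hy => ?_⟩
    have h1 := hconst i y hy
    have h2 := hconst i x hx
    rw [hi] at h1 h2
    show S.g w y < 1 / ((n : ℝ) + 1)
    rw [h1, ← h2]
    exact hcon
  cases s with
  | false =>
    refine ⟨{q : X × X | 1 / (2 * ((n : ℝ) + 1)) < S.g w q.1}, ?_, fun a ha => ?_⟩
    · refine IsOpen.mem_nhds (isOpen_lt continuous_const ((S.g_cont w).comp continuous_fst)) ?_
      exact hlt.trans_le (key r.1 rfl)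
    · exact not_lt.2 (le_of_lt ha)
  | true =>
    refine ⟨{q : X × X | 1 / (2 * ((n : ℝ) + 1)) < S.g w q.2}, ?_, fun a ha => ?_⟩
    · refine IsOpen.mem_nhds (isOpen_lt continuous_const ((S.g_cont w).comp continuous_snd)) ?_
      exact hlt.trans_le (key r.2 hr.2.symm)
    · exact not_lt.2 (le_of_lt ha)

theorem Discrete_generic (hMA : MA ℵ₁) {M : Type} [TopologicalSpace M]
    [TopologicalSpace.MetrizableSpace M] [SecondCountableTopology M]
    {B : Type} [LinearOrder B] (hB : ∀ a : B, (Iic a).Countable) (hBu : ¬ Countable B)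
    (hBc : #B ≤ ℵ₁) (p : B → M) (good : ℕ → B → Prop) (R : ℕ → ℕ → B → Set M)
    (hR : ∀ k n n' a, n ≤ n' → R k n a ⊆ R k n' a)
    (hfree : ∀ a b, a ≠ b → ∀ k n, good k b → p a ∉ closure (R k n b)) (idx : ℕ → B → ℕ)
    {J : Type} (hJ : #J ≤ ℵ₁) (Z : J → Set M) (hZc : ∀ j, IsClosed (Z j))
    (hZ : ∀ j a, p a ∉ Z j) :
    ∃ B' : Set B, ¬ B'.Countable ∧ (∀ j, Disjoint (closure (p '' B')) (Z j)) ∧
      (∀ k, ∃ N, ∀ a ∈ B', idx k a ≤ N) ∧
      (∀ k n, ∀ a ∈ B', good k a → ∀ m ∈ closure (p '' B'), m ≠ p a → m ∉ R k n a) := by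
  let _ := TopologicalSpace.metrizableSpaceMetric M
  exact Gen.generic hMA hB hBu hBc p good R hR hfree idx hJ Z hZc hZ

theorem Discrete_Iic (a : Om1) : (Iic a).Countable := by
  have h : (Iio a).Countable := by
    rw [Cardinal.countable_iff_lt_aleph_one]
    have := mk_Iio_lt a (by rw [mk_ord_toType, Ordinal.type_toType])
    rwa [mk_ord_toType] at this
  rw [← Iio_insert]
  exact h.insert a

theorem Discrete_mk : #Om1 = ℵ₁ := mk_ord_toType _

/-- The killing relation for large `n`. -/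
theorem Discrete_kill [CompactSpace X] {Ω₁ : Type} (S : Setup X Ω Ω₁) (z : X) (U : Set X)
    (hU : IsOpen U) (hz : z ∈ U) : ∃ n : ℕ, ∀ y, S.g z y < 1 / ((n : ℝ) + 1) → y ∈ U := by
  by_contra hcon
  push Not at hcon
  have hK : IsCompact (Uᶜ) := hU.isClosed_compl.isCompact
  by_cases hne : (Uᶜ).Nonempty
  · obtain ⟨x, hx, hmin⟩ := hK.exists_isMinOn hne (S.g_cont z).continuousOn
    have hpos : 0 < S.g z x := by
      refine lt_of_le_of_ne (S.g_nonneg z x) fun h => hx ?_
      rw [(S.g_zero z x).1 h.symm]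
      exact hz
    obtain ⟨n, hn⟩ := exists_nat_one_div_lt hpos
    obtain ⟨y, hy, hyU⟩ := hcon n
    have h1 := hmin hyU
    have h2 : S.g z x ≤ S.g z y := h1
    linarith
  · obtain ⟨y, -, hyU⟩ := hcon 0
    exact hne ⟨y, hyU⟩

theorem Discrete_kill_mono {Ω₁ : Type} (S : Setup X Ω Ω₁) (r : X × X) (a : Ω) {n n' : ℕ}
    (h : n ≤ n') (hk : S.KillN r a n) : S.KillN r a n' := by
  have hle : 1 / ((n' : ℝ) + 1) ≤ 1 / ((n : ℝ) + 1) := by
    apply one_div_le_one_div_of_le
    · positivity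
    · have : (n : ℝ) ≤ n' := by exact_mod_cast h
      linarith
  exact ⟨fun y hy => hk.1 y (hy.trans_le hle), fun y hy => hk.2 y (hy.trans_le hle)⟩

/-- The condition which defines the index. -/
def Discrete_cond {Ω₁ : Type} (S : Setup X Ω Ω₁) (k : ℕ) (t : Bool × ℕ × X) (a : Ω) : Prop :=
  t.2.2 ∈ S.W t.1 k t.2.1 ∧ S.g t.2.2 (S.z t.1 a) < 1 / (2 * ((t.2.1 : ℝ) + 1))

theorem Discrete_enum {Ω₁ : Type} (S : Setup X Ω Ω₁) [Nonempty X] (k : ℕ) :
    ∃ t : ℕ → Bool × ℕ × X, ∀ s n w, w ∈ S.W s k n → ∃ j, t j = (s, n, w) := by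
  have hc : {q : Bool × ℕ × X | q.2.2 ∈ S.W q.1 k q.2.1}.Countable := by
    have : {q : Bool × ℕ × X | q.2.2 ∈ S.W q.1 k q.2.1} ⊆
        ⋃ s : Bool, ⋃ n : ℕ, (fun w => (s, n, w)) '' S.W s k n := by
      rintro ⟨s, n, w⟩ hq
      exact mem_iUnion.2 ⟨s, mem_iUnion.2 ⟨n, w, hq, rfl⟩⟩
    refine Countable.mono this ?_
    exact countable_iUnion fun s => countable_iUnion fun n => (S.W_count s k n).image _
  by_cases hne : {q : Bool × ℕ × X | q.2.2 ∈ S.W q.1 k q.2.1}.Nonempty
  · obtain ⟨t, ht⟩ := hc.exists_eq_range hne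
    refine ⟨t, fun s n w hw => ?_⟩
    have : (s, n, w) ∈ range t := by
      rw [← ht]
      exact hw
    exact this
  · refine ⟨fun _ => (false, 0, Classical.arbitrary X), fun s n w hw => ?_⟩
    exact (hne ⟨(s, n, w), hw⟩).elim

/-- Step 8.

PROOF. Let `Φ a := {b | ∃ k n, S.Good k b ∧ S.π (S.z false a) ∈ closure (S.R k n b)}`, countable
by `Setup.countable_closure`. `free_set` (with `Ω₁ := Om1`, `#Om1 = ℵ₁`) gives an injective
`e : Om1 → Ω` with `e b ∉ Φ (e a)` for `a ≠ b`. For every colour `k` let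
`t k : ℕ → Bool × ℕ × X` be such that every triple `(s, n, w)` with `w ∈ W s k n` is some `t k j`
(the set of these triples is countable; if it is empty every `a` is `k`-good), and define
`idx k b := 0` if `Good k (e b)` and otherwise the least `j` such that `t k j = (s, n, w)` with
`w ∈ W s k n` and `g w (z s (e b)) < 1/(2*(n+1))` (exists by the definition of `Good` and `W_cov`).
Apply `Gen.generic` with `M := ℕ → ℝ` (with a metric inducing the topology:
`letI := TopologicalSpace.metrizableSpaceMetric (ℕ → ℝ)`), `B := Om1`,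
`p b := π (z false (e b))`, `good k b := Good k (e b)`, `R k n b := S.R k n (e b)`,
`J := Om1 × ℕ`, `Z (i, j) := {m | ∃ y y', π y = m ∧ π y' = m ∧ 1/(j+1) ≤ |C i y - C i y'|}`
(closed: continuous image of a compact set; `p b ∉ Z (i, j)` by `C_const`). Take the image `B₀` in
`Ω` of the resulting set; it is uncountable.
Let `r` be a pair, `r.1 ≠ r.2`. If `π r.1 ≠ π r.2` a neighbourhood of `r` contains no pair
`(z false a, z true a)`. If `m := π r.1 ∉ closure (p '' B')` there is again such a neighbourhood. So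
let `Pr π r` and `m ∈ closure (p '' B')`, `k := c r`. Then all `C i` are constant on the fibre of
`r.1`. The `a ∈ B₀` which are not `k`-good belong to finitely many sets as in `witness_nhds`
(bound `N` for `idx k`), so some neighbourhood `U₁` of `r` contains none of their pairs. Let
`U₂ := {q | F r q.1 < 1/3 ∧ 2/3 < F r q.2}`, a neighbourhood of `r`. If `a ∈ B₀` is `k`-good and
its pair is in `U₂` then `KillN r a n` for some `n` (compactness: the sets
`{g x < 1/(n+1)}` are a base at `x`), so `m ∈ R k n a`, hence `m = π (z false a)` by the last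
property of the generic set. By `Setup.inj` there is at most one such `a`. So
`U₁ ∩ U₂` contains at most one pair. -/
theorem Setup.exists_discrete [CompactSpace X] [HereditarilyLindelofSpace X]
    [WellFoundedLT Ω] (hMA : MA ℵ₁) (hΩ : ℵ₁ < #Ω) (S : Setup X Ω Om1) :
    ∃ B₀ : Set Ω, ¬ B₀.Countable ∧ ∀ r : X × X, r.1 ≠ r.2 →
      ∃ U ∈ 𝓝 r, {a ∈ B₀ | (S.z false a, S.z true a) ∈ U}.Finite := by
  classical
  have hΩne : Nonempty Ω := by
    by_contra h
    rw [not_nonempty_iff] at h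
    rw [Cardinal.mk_eq_zero] at hΩ
    simp at hΩ
  have hXne : Nonempty X := ⟨S.z false hΩne.some⟩
  -- the free family
  obtain ⟨e, he, hefree⟩ := free_set hΩ Discrete_mk
    (fun a : Ω => {b | ∃ k n, S.Good k b ∧ S.π (S.z false a) ∈ closure (S.R k n b)})
    (fun a => by
      have : {b | ∃ k n, S.Good k b ∧ S.π (S.z false a) ∈ closure (S.R k n b)} =
          ⋃ k, ⋃ n, {b | S.Good k b ∧ S.π (S.z false a) ∈ closure (S.R k n b)} := by
        ext b
        simp only [mem_iUnion]
        rfl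
      rw [this]
      exact countable_iUnion fun k => countable_iUnion fun n => S.countable_closure a k n)
  choose t ht using fun k => Discrete_enum S k
  have hnotgood : ∀ k a, ¬ S.Good k a → ∃ j, Discrete_cond S k (t k j) a := by
    intro k a hna
    unfold Setup.Good at hna
    push Not at hna
    obtain ⟨s, n, hsn⟩ := hna
    obtain ⟨w, hw, hw2⟩ := S.W_cov s k n a (by
      rintro ⟨r, h1, h2, h3⟩
      exact hsn r h1 h2 h3)
    obtain ⟨j, hj⟩ := ht k s n w hw
    refine ⟨j, ?_⟩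
    rw [hj]
    exact ⟨hw, hw2⟩
  set idx : ℕ → Om1 → ℕ := fun k b => sInf {j | Discrete_cond S k (t k j) (e b)} with hidx
  set Z : Om1 × ℕ → Set (ℕ → ℝ) := fun q => {m | ∃ y y', S.π y = m ∧ S.π y' = m ∧
    1 / ((q.2 : ℝ) + 1) ≤ |S.C q.1 y - S.C q.1 y'|} with hZ
  have hZc : ∀ q, IsClosed (Z q) := by
    intro q
    have hK : IsCompact {x : X × X | S.π x.1 = S.π x.2 ∧
        1 / ((q.2 : ℝ) + 1) ≤ |S.C q.1 x.1 - S.C q.1 x.2|} := by
      refine IsClosed.isCompact (IsClosed.inter ?_ ?_)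
      · exact isClosed_eq (S.π_cont.comp continuous_fst) (S.π_cont.comp continuous_snd)
      · exact isClosed_le continuous_const
          (((S.C_cont q.1).comp continuous_fst).sub ((S.C_cont q.1).comp continuous_snd)).abs
    have himg : Z q = (fun x : X × X => S.π x.1) '' {x : X × X | S.π x.1 = S.π x.2 ∧
        1 / ((q.2 : ℝ) + 1) ≤ |S.C q.1 x.1 - S.C q.1 x.2|} := by
      ext m
      constructor
      · rintro ⟨y, y', h1, h2, h3⟩
        exact ⟨(y, y'), ⟨h1.trans h2.symm, h3⟩, h1⟩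
      · rintro ⟨⟨y, y'⟩, ⟨h1, h2⟩, h3⟩
        exact ⟨y, y', h3, h1.symm.trans h3, h2⟩
    rw [himg]
    exact (hK.image (S.π_cont.comp continuous_fst)).isClosed
  have hZp : ∀ q (b : Om1), S.π (S.z false (e b)) ∉ Z q := by
    rintro q b ⟨y, y', h1, h2, h3⟩
    have h4 := S.C_const q.1 (e b) y h1
    have h5 := S.C_const q.1 (e b) y' h2
    rw [h4, h5, sub_self, abs_zero] at h3
    have : (0 : ℝ) < 1 / ((q.2 : ℝ) + 1) := by positivity
    linarith
  have hJ : #(Om1 × ℕ) ≤ ℵ₁ := by
    rw [Cardinal.mk_prod, Cardinal.lift_id, Cardinal.lift_id, Discrete_mk, Cardinal.mk_nat]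
    exact (Cardinal.mul_aleph0_eq (Cardinal.aleph0_le_aleph 1)).le
  have hunc : ¬ Countable Om1 := by
    rw [← Cardinal.mk_le_aleph0_iff, Discrete_mk, not_le]
    exact Cardinal.aleph0_lt_aleph_one
  obtain ⟨B', hB'u, hB'Z, hB'idx, hB'R⟩ := Discrete_generic hMA (M := ℕ → ℝ) (B := Om1)
    Discrete_Iic hunc Discrete_mk.le (fun b => S.π (S.z false (e b)))
    (fun k b => S.Good k (e b)) (fun k n b => S.R k n (e b))
    (by
      rintro k n n' b hnn m ⟨r, h1, h2, h3, h4⟩
      exact ⟨r, h1, h2, Discrete_kill_mono S r (e b) hnn h3, h4⟩)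
    (by
      intro a b hab k n hg hcl
      exact hefree a b hab ⟨k, n, hg, hcl⟩)
    idx hJ Z hZc hZp
  refine ⟨e '' B', fun hc => hB'u ?_, fun r hr12 => ?_⟩
  · exact (hc.preimage_of_injOn he.injOn).mono (subset_preimage_image e B')
  by_cases hπ : S.π r.1 = S.π r.2
  swap
  · refine ⟨{q : X × X | S.π q.1 ≠ S.π q.2}, ?_, ?_⟩
    · refine IsOpen.mem_nhds ?_ hπ
      exact isOpen_ne_fun (S.π_cont.comp continuous_fst) (S.π_cont.comp continuous_snd)
    · convert Set.finite_empty using 1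
      rw [eq_empty_iff_forall_notMem]
      rintro a ⟨-, ha⟩
      exact ha (S.z_pi a)
  have hr : Pr S.π r := ⟨hr12, hπ⟩
  by_cases hm : S.π r.1 ∈ closure ((fun b => S.π (S.z false (e b))) '' B')
  swap
  · refine ⟨{q : X × X | S.π q.1 ∉ closure ((fun b => S.π (S.z false (e b))) '' B')}, ?_, ?_⟩
    · refine IsOpen.mem_nhds ?_ hm
      exact isClosed_closure.isOpen_compl.preimage (S.π_cont.comp continuous_fst)
    · convert Set.finite_empty using 1
      rw [eq_empty_iff_forall_notMem]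
      rintro a ⟨⟨b, hb, rfl⟩, ha⟩
      exact ha (subset_closure ⟨b, hb, rfl⟩)
  -- the main case
  have hconst : ∀ i, ConstOn S.π (S.C i) r.1 := by
    intro i y hy
    by_contra hne
    have hpos : 0 < |S.C i y - S.C i r.1| := abs_pos.2 (sub_ne_zero.2 hne)
    obtain ⟨j, hj⟩ := exists_nat_one_div_lt hpos
    exact Set.disjoint_left.1 (hB'Z (i, j)) hm ⟨y, r.1, hy, rfl, hj.le⟩
  obtain ⟨N, hN⟩ := hB'idx (S.c r)
  have hUj : ∀ j, ∃ U ∈ 𝓝 r, ∀ a, (S.z false a, S.z true a) ∈ U →
      ¬ Discrete_cond S (S.c r) (t (S.c r) j) a := by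
    intro j
    by_cases hw : (t (S.c r) j).2.2 ∈ S.W (t (S.c r) j).1 (S.c r) (t (S.c r) j).2.1
    · obtain ⟨U, hU, hU2⟩ := S.witness_nhds r hr hconst _ _ _ hw
      exact ⟨U, hU, fun a ha hc => hU2 a ha hc.2⟩
    · exact ⟨univ, Filter.univ_mem, fun a _ hc => hw hc.1⟩
  choose U hU1 hU2 using hUj
  refine ⟨(⋂ j ∈ Finset.range (N + 1), U j) ∩ {q : X × X | S.F r q.1 < 1 / 3 ∧
    2 / 3 < S.F r q.2}, Filter.inter_mem ?_ ?_, ?_⟩
  · exact (Filter.biInter_finset_mem _).2 fun j _ => hU1 j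
  · refine IsOpen.mem_nhds (IsOpen.inter ?_ ?_) ⟨?_, ?_⟩
    · exact isOpen_lt ((S.F_cont r).comp continuous_fst) continuous_const
    · exact isOpen_lt continuous_const ((S.F_cont r).comp continuous_snd)
    · show S.F r r.1 < 1 / 3
      rw [S.F_zero r hr12]
      norm_num
    · show 2 / 3 < S.F r r.2
      rw [S.F_one r hr12]
      norm_num
  · have hkey : ∀ a ∈ {a ∈ e '' B' | (S.z false a, S.z true a) ∈
        (⋂ j ∈ Finset.range (N + 1), U j) ∩ {q : X × X | S.F r q.1 < 1 / 3 ∧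
          2 / 3 < S.F r q.2}}, S.π (S.z false a) = S.π r.1 := by
      rintro a ⟨⟨b, hb, rfl⟩, ha1, ha2⟩
      have hgood : S.Good (S.c r) (e b) := by
        by_contra hng
        have hne : {j | Discrete_cond S (S.c r) (t (S.c r) j) (e b)}.Nonempty :=
          hnotgood (S.c r) (e b) hng
        have hmem := Nat.sInf_mem hne
        have hle : sInf {j | Discrete_cond S (S.c r) (t (S.c r) j) (e b)} ≤ N := hN b hb
        have h1 : (S.z false (e b), S.z true (e b)) ∈
            U (sInf {j | Discrete_cond S (S.c r) (t (S.c r) j) (e b)}) := by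
          have h2 := mem_iInter₂.1 ha1
            (sInf {j | Discrete_cond S (S.c r) (t (S.c r) j) (e b)})
            (Finset.mem_range.2 (Nat.lt_succ_of_le hle))
          exact h2
        exact hU2 _ _ h1 hmem
      obtain ⟨n1, hn1⟩ := Discrete_kill S (S.z false (e b)) {y | S.F r y < 1 / 3}
        (isOpen_lt (S.F_cont r) continuous_const) ha2.1
      obtain ⟨n2, hn2⟩ := Discrete_kill S (S.z true (e b)) {y | 2 / 3 < S.F r y}
        (isOpen_lt continuous_const (S.F_cont r)) ha2.2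
      have hk : S.KillN r (e b) (max n1 n2) := by
        have hle1 : 1 / (((max n1 n2 : ℕ) : ℝ) + 1) ≤ 1 / ((n1 : ℝ) + 1) := by
          apply one_div_le_one_div_of_le
          · positivity
          · have : (n1 : ℝ) ≤ ((max n1 n2 : ℕ) : ℝ) := by exact_mod_cast le_max_left n1 n2
            linarith
        have hle2 : 1 / (((max n1 n2 : ℕ) : ℝ) + 1) ≤ 1 / ((n2 : ℝ) + 1) := by
          apply one_div_le_one_div_of_le
          · positivity
          · have : (n2 : ℝ) ≤ ((max n1 n2 : ℕ) : ℝ) := by exact_mod_cast le_max_right n1 n2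
            linarith
        exact ⟨fun y hy => hn1 y (hy.trans_le hle1), fun y hy => hn2 y (hy.trans_le hle2)⟩
      by_contra hne
      exact hB'R (S.c r) (max n1 n2) b hb hgood (S.π r.1) hm (fun h => hne h.symm)
        ⟨r, hr, rfl, hk, rfl⟩
    refine Set.Subsingleton.finite fun a ha a' ha' => ?_
    exact S.inj ((hkey a ha).trans (hkey a' ha').symm)

end Pool.Agent.W_3b51b4_h27
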