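import Pool.Agent.W_3b51b4_h27.Witness
import Pool.Agent.W_3b51b4_h27.Discrete
import Pool.Agent.W_MP_3b51b4_gt.Topo

/-!
# Topological preliminaries and conclusion
-/

namespace Pool.Agent.W_3b51b4_h27

open Set Topology Cardinal
open Pool.Agent.W_MP_3b51b4_gt

universe u

/-- In a perfectly normal compactum every point is the zero set of a continuous nonnegative
function.

PROOF. Points are closed `Gδ` sets; Mathlib has zero sets of continuous functions for closed `Gδ`
sets in normal spaces (Urysohn), or build `∑ 2^{-n} f_n` with `f_n` separating `z` from the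
complement of the `n`-th member of a countable base at `z` (`exists_base`). -/
theorem exists_g {X : Type u} [TopologicalSpace X] [CompactSpace X] [T2Space X]
    [PerfectlyNormalSpace X] (z : X) :
    ∃ g : X → ℝ, Continuous g ∧ (∀ y, 0 ≤ g y) ∧ ∀ y, g y = 0 ↔ y = z := by
  obtain ⟨f, hf, hf0⟩ := (perfectlyNormalSpace_iff_forall_isClosed_preimage_zero.1
    (inferInstance : PerfectlyNormalSpace X)) {z} isClosed_singleton
  refine ⟨fun y => |f y|, f.continuous.abs, fun y => abs_nonneg _, fun y => ?_⟩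
  have h1 : y ∈ ({z} : Set X) ↔ y ∈ f ⁻¹' {0} := by rw [← hf]
  simp only [mem_singleton_iff, mem_preimage] at h1
  rw [abs_eq_zero, h1]

/-- If `ℵ₁` continuous functions separate the points of the compactum `X` then `w(X) ≤ ℵ₁`.

PROOF. The finite intersections of the sets `{x | p < D i x ∧ D i x < q}`, `p q : ℚ`, `i : Om1`,
form a base: the topology they generate is Hausdorff and coarser than the compact topology, hence
equal. Their number is at most `ℵ₁`. -/
theorem weightLE_of_separating {X : Type u} [TopologicalSpace X] [CompactSpace X]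
    (D : Om1 → X → ℝ) (hD : ∀ i, Continuous (D i)) (hsep : ∀ x y, x ≠ y → ∃ i, D i x ≠ D i y) :
    WeightLE X ℵ₁ := by
  classical
  have h1 : #Om1 = ℵ₁ := mk_ord_toType _
  have hinf1 : Infinite Om1 := by
    rw [Cardinal.infinite_iff, h1]
    exact Cardinal.aleph0_lt_aleph_one.le
  have hne1 : Nonempty Om1 := inferInstance
  have hcard : #(Finset (Om1 × ℚ × ℚ)) ≤ ℵ₁ := by
    rw [Cardinal.mk_finset_of_infinite, Cardinal.mk_prod, Cardinal.lift_id, Cardinal.lift_id, h1]
    refine Cardinal.mul_le_of_le Cardinal.aleph0_lt_aleph_one.le le_rfl ?_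
    exact (Cardinal.mk_le_aleph0 (α := ℚ × ℚ)).trans Cardinal.aleph0_lt_aleph_one.le
  let B : Finset (Om1 × ℚ × ℚ) → Set X := fun t =>
    ⋂ p ∈ t, {x | (p.2.1 : ℝ) < D p.1 x ∧ D p.1 x < p.2.2}
  refine ⟨Finset (Om1 × ℚ × ℚ), B, hcard, ?_⟩
  refine TopologicalSpace.isTopologicalBasis_of_isOpen_of_nhds ?_ ?_
  · rintro _ ⟨t, rfl⟩
    refine isOpen_biInter_finset fun p _ => ?_
    exact (isOpen_lt continuous_const (hD p.1)).inter (isOpen_lt (hD p.1) continuous_const)
  · intro x U hxU hU
    have h1 : ∀ y : X, y ∈ Uᶜ → ∃ p : Om1 × ℚ × ℚ, ((p.2.1 : ℝ) < D p.1 x ∧ D p.1 x < p.2.2) ∧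
        (D p.1 y < p.2.1 ∨ (p.2.2 : ℝ) < D p.1 y) := by
      intro y hy
      have hxy : x ≠ y := by
        rintro rfl
        exact hy hxU
      obtain ⟨i, hi⟩ := hsep x y hxy
      rcases lt_or_gt_of_ne hi with h | h
      · obtain ⟨q, hq1, hq2⟩ := exists_rat_btwn h
        obtain ⟨p, hp1, hp2⟩ := exists_rat_btwn (sub_one_lt (D i x))
        exact ⟨(i, p, q), ⟨hp2, hq1⟩, Or.inr hq2⟩
      · obtain ⟨q, hq1, hq2⟩ := exists_rat_btwn h
        obtain ⟨p, hp1, hp2⟩ := exists_rat_btwn (lt_add_one (D i x))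
        exact ⟨(i, q, p), ⟨hq2, hp1⟩, Or.inl hq1⟩
    choose! p hp1 hp2 using h1
    obtain ⟨t, ht1, ht2⟩ := hU.isClosed_compl.isCompact.elim_nhds_subcover
      (fun y => {v | D (p y).1 v < (p y).2.1 ∨ ((p y).2.2 : ℝ) < D (p y).1 v})
      (fun y hy => ((isOpen_lt (hD _) continuous_const).union
        (isOpen_lt continuous_const (hD _))).mem_nhds (hp2 y hy))
    refine ⟨B (t.image p), mem_range_self _, ?_, ?_⟩
    · refine mem_iInter₂.2 fun q hq => ?_
      obtain ⟨y, hy, rfl⟩ := Finset.mem_image.1 hq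
      exact hp1 y (ht1 y hy)
    · intro v hv
      by_contra hvU
      obtain ⟨y, hy, hvy⟩ := mem_iUnion₂.1 (ht2 hvU)
      have h2 := mem_iInter₂.1 hv (p y) (Finset.mem_image_of_mem p hy)
      rcases hvy with h3 | h3
      · exact absurd h2.1 (not_lt.2 h3.le)
      · exact absurd h2.2 (not_lt.2 h3.le)

/-- Under MA and OCA the square minus the diagonal of a perfectly normal compactum of weight bigger
than `ℵ₁` has an uncountable closed discrete subset.

PROOF. `X` is hereditarily Lindelof (`hereditarilyLindelof`); the functions `g` come from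
`exists_g`, the functions `F` from complete regularity; `exists_setup` (hypothesis `hw` by
`weightLE_of_separating`) and `Setup.exists_discrete`. -/
theorem exists_discrete_pairs (hMA : MA ℵ₁) (hOCA : OCA) {X : Type u} [TopologicalSpace X]
    [CompactSpace X] [T2Space X] [PerfectlyNormalSpace X] (hw : ¬ WeightLE X ℵ₁) :
    ∃ (Ω : Type) (x y : Ω → X), ¬ Countable Ω ∧ (∀ a, x a ≠ y a) ∧
      ∀ r : X × X, r.1 ≠ r.2 → ∃ U ∈ 𝓝 r, {a | (x a, y a) ∈ U}.Finite := by
  classical
  have hHL : HereditarilyLindelofSpace X := hereditarilyLindelof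
  choose g hg hg0 hgz using exists_g (X := X)
  have hF : ∀ r : X × X, ∃ F : X → ℝ, Continuous F ∧ (r.1 ≠ r.2 → F r.1 = 0) ∧
      (r.1 ≠ r.2 → F r.2 = 1) := by
    intro r
    by_cases hr : r.1 = r.2
    · exact ⟨fun _ => 0, continuous_const, fun h => absurd hr h, fun h => absurd hr h⟩
    · obtain ⟨f, hf0, hf1, -⟩ := exists_continuous_zero_one_of_isClosed
        (isClosed_singleton (x := r.1)) (isClosed_singleton (x := r.2))
        (by simpa using hr)
      exact ⟨f, f.continuous, fun _ => hf0 (mem_singleton _), fun _ => hf1 (mem_singleton _)⟩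
  choose F hFc hF0 hF1 using hF
  have hw' : ∀ D : Om1 → X → ℝ, (∀ i, Continuous (D i)) → ∃ x y, x ≠ y ∧ ∀ i, D i x = D i y := by
    intro D hD
    by_contra hcon
    push Not at hcon
    exact hw (weightLE_of_separating D hD hcon)
  obtain ⟨Ω, hlin, hwf, hΩ, ⟨S⟩⟩ := exists_setup hOCA hw' g hg hg0 hgz F hFc hF0 hF1
  obtain ⟨B₀, hB₀, hfin⟩ := S.exists_discrete hMA hΩ
  refine ⟨B₀, fun a => S.z false a, fun a => S.z true a, fun h => hB₀ ?_, fun a => S.z_ne a, ?_⟩
  · exact countable_coe_iff.1 h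
  · intro r hr
    obtain ⟨U, hU, hUf⟩ := hfin r hr
    refine ⟨U, hU, ?_⟩
    refine Set.Finite.of_finite_image (f := Subtype.val) (hUf.subset ?_)
      Subtype.val_injective.injOn
    rintro _ ⟨a, ha, rfl⟩
    exact ⟨a.2, ha⟩

/-- An uncountable closed discrete set of pairs in a compact subspace `Y` of a Tychonoff space `X`
refutes `p(C_p(X)) = ω`.

PROOF. See the end of `MartinAxiomSmallWeight` of helper35: the sets
`O a := {f | f (x a) < 0 ∧ 1 < f (y a)}` are open, nonempty (complete regularity), and every `f`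
belongs to finitely many: the pairs with `f (x a) ≤ 0` and `1 ≤ f (y a)` lie in a compact subset of
`Y × Y` disjoint from the diagonal, covered by finitely many open sets each containing finitely
many pairs. -/
theorem not_pfc {X : Type u} [TopologicalSpace X] [T35Space X] (Y : Set X) (hY : IsCompact Y)
    {Ω : Type} (x y : Ω → Y) (hΩ : ¬ Countable Ω) (hne : ∀ a, x a ≠ y a)
    (hd : ∀ r : Y × Y, r.1 ≠ r.2 → ∃ U ∈ 𝓝 r, {a | (x a, y a) ∈ U}.Finite) :
    ¬ PointFiniteCellularityCountable (Cp X) := by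
  classical
  intro hp
  have : CompactSpace Y := isCompact_iff_compactSpace.1 hY
  let O : Ω → Set (Cp X) := fun a => {f | f.1 (x a) < 0 ∧ 1 < f.1 (y a)}
  have hOo : ∀ a, IsOpen (O a) := by
    intro a
    have h1 : Continuous fun f : Cp X => f.1 (x a) :=
      (continuous_apply (x a : X)).comp continuous_subtype_val
    have h2 : Continuous fun f : Cp X => f.1 (y a) :=
      (continuous_apply (y a : X)).comp continuous_subtype_val
    exact (isOpen_lt h1 continuous_const).inter (isOpen_lt continuous_const h2)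
  have hOn : ∀ a, (O a).Nonempty := by
    intro a
    have hne' : (x a : X) ∉ ({(y a : X)} : Set X) := fun h => hne a (Subtype.ext h)
    obtain ⟨g, hg, hg0, hg1⟩ := CompletelyRegularSpace.completely_regular (x a : X)
      ({(y a : X)} : Set X) isClosed_singleton hne'
    refine ⟨⟨fun p => 3 * (g p : ℝ) - 1,
      (continuous_const.mul (continuous_subtype_val.comp hg)).sub continuous_const⟩, ?_, ?_⟩
    · simp [hg0]
    · have : g (y a) = 1 := hg1 (mem_singleton _)
      simp only [this]
      norm_num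
  have hOfin : ∀ f : Cp X, {a | f ∈ O a}.Finite := by
    intro f
    have hf : Continuous fun z : Y => f.1 z := f.2.comp continuous_subtype_val
    have hK : IsClosed {r : Y × Y | f.1 r.1 ≤ 0 ∧ 1 ≤ f.1 r.2} :=
      (isClosed_le (hf.comp continuous_fst) continuous_const).inter
        (isClosed_le continuous_const (hf.comp continuous_snd))
    have hneK : ∀ r ∈ {r : Y × Y | f.1 r.1 ≤ 0 ∧ 1 ≤ f.1 r.2}, r.1 ≠ r.2 := by
      rintro r ⟨h1, h2⟩ h
      rw [h] at h1
      linarith
    choose! U hU hUf using hd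
    obtain ⟨t, ht1, ht2⟩ := hK.isCompact.elim_nhds_subcover U (fun r hr => hU r (hneK r hr))
    refine (t.finite_toSet.biUnion fun r hr => hUf r (hneK r (ht1 r hr))).subset ?_
    rintro a ⟨ha1, ha2⟩
    obtain ⟨r, hr, har⟩ := mem_iUnion₂.1 (ht2 (show (x a, y a) ∈ _ from ⟨ha1.le, ha2.le⟩))
    exact mem_iUnion₂.2 ⟨r, hr, har⟩
  have hcount : (range O).Countable := by
    refine hp (range O) ?_ ?_
    · rintro _ ⟨a, rfl⟩
      exact ⟨hOo a, hOn a⟩
    · intro f
      refine ((hOfin f).image O).subset ?_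
      rintro _ ⟨⟨a, rfl⟩, hf⟩
      exact ⟨a, hf, rfl⟩
  apply hΩ
  rw [← countable_univ_iff]
  refine (hcount.biUnion (t := fun U _ => {a | O a = U}) ?_).mono ?_
  · rintro _ ⟨b, rfl⟩
    obtain ⟨f, hf⟩ := hOn b
    refine ((hOfin f).subset ?_).countable
    intro a hab
    have h1 : O a = O b := hab
    show f ∈ O a
    rw [h1]
    exact hf
  · intro a _
    exact mem_iUnion₂.2 ⟨O a, ⟨a, rfl⟩, rfl⟩

end Pool.Agent.W_3b51b4_h27
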