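import Pool.Agent.W_3b51b4_h27.GenDefs

/-!
# Step 7: the countable chain condition
-/

namespace Pool.Agent.W_3b51b4_h27.Gen

open Set Topology Cardinal

variable {M : Type} [MetricSpace M] {B : Type} (D : Dat M B)

/-- Two conditions with the same neighbourhoods and the same list are compatible.

PROOF. Apply `refine_exists` to `F := p.F ∪ q.F`, `V := p.V = q.V`, `N := p.s.length`, `ε := 1`,
`Z := ∅`; the condition `(F, V', p.s)` is below both. -/
theorem compat (p q : Cond D) (hV : p.V = q.V) (hs : p.s = q.s) :
    ∃ r : Cond D, r ≤ p ∧ r ≤ q := by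
  classical
  obtain ⟨V', h1, h2, -, -, h5⟩ := refine_exists D (p.F ∪ q.F) p.V
    (fun a ha => (Finset.mem_union.1 ha).elim (fun h => p.cov a h) fun h => by
      rw [hV]
      exact q.cov a h) p.s.length 1 one_pos ∅ isClosed_empty (fun _ _ h => h)
  refine ⟨⟨p.F ∪ q.F, V', p.s, p.ne.mono Finset.subset_union_left, h1, h5, ?_⟩, ?_, ?_⟩
  · intro a ha k h
    rcases Finset.mem_union.1 ha with ha | ha
    · exact p.bd a ha k h
    · have h6 : k < q.s.length := by rw [← hs]; exact h
      have h7 := q.bd a ha k h6
      have h8 : q.s[k] = p.s[k] := by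
        simp only [hs]
      rwa [h8] at h7
  · exact ⟨Finset.subset_union_left, h2, List.prefix_refl _⟩
  · refine ⟨Finset.subset_union_right, fun v hv => ?_, ?_⟩
    · rw [← hV]
      exact h2 v hv
    · change q.s <+: p.s
      exact ⟨[], by rw [List.append_nil, hs]⟩

/-- The countable chain condition.

PROOF. The map `p ↦ (p.V, p.s)` to the countable type `Finset ℕ × List ℕ` is injective on an
antichain by `compat`. -/
theorem ccc (A : Set (Cond D))
    (hA : ∀ p ∈ A, ∀ q ∈ A, p ≠ q → ¬ ∃ r, r ≤ p ∧ r ≤ q) : A.Countable := by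
  have hinj : Set.InjOn (fun p : Cond D => (p.V, p.s)) A := by
    intro p hp q hq h
    by_contra hne
    exact hA p hp q hq hne (compat D p q (congrArg Prod.fst h) (congrArg Prod.snd h))
  exact Set.MapsTo.countable_of_injOn (t := Set.univ) (fun _ _ => Set.mem_univ _) hinj
    (Set.to_countable _)

end Pool.Agent.W_3b51b4_h27.Gen
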