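import Pool.Agent.W_MP_3b51b4_gt.Defs

/-!
# Step 7: the partial order
-/

namespace Pool.Agent.W_3b51b4_h27.Gen

open Set Topology Cardinal

/-- The data of the forcing construction. -/
structure Dat (M : Type) [MetricSpace M] (B : Type) where
  /-- a countable base of open sets -/
  U : ℕ → Set M
  U_open : ∀ n, IsOpen (U n)
  U_base : ∀ (x : M) (V : Set M), IsOpen V → x ∈ V → ∃ n, x ∈ U n ∧ closure (U n) ⊆ V
  p : B → M
  good : ℕ → B → Prop
  R : ℕ → ℕ → B → Set M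
  free : ∀ a b, a ≠ b → ∀ k n, good k b → p a ∉ closure (R k n b)
  idx : ℕ → B → ℕ
  thick : ∀ (v : ℕ) (s : List ℕ) (a : B), p a ∈ U v → (∀ k (h : k < s.length), idx k a ≤ s[k]) →
    ¬ {b | p b ∈ U v ∧ ∀ k (h : k < s.length), idx k b ≤ s[k]}.Countable

variable {M : Type} [MetricSpace M] {B : Type} (D : Dat M B)

/-- Conditions: a finite nonempty set `F` of indices, a finite set `V` of (indices of) basic open
sets covering the points `p a`, `a ∈ F`, and a finite list `s` of bounds. -/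
@[ext]
structure Cond where
  F : Finset B
  V : Finset ℕ
  s : List ℕ
  ne : F.Nonempty
  cov : ∀ a ∈ F, ∃ v ∈ V, D.p a ∈ D.U v
  sep : ∀ a ∈ F, ∀ v ∈ V, D.p a ∉ closure (D.U v) → ∀ k < s.length, D.good k a →
    Disjoint (closure (D.U v)) (D.R k s.length a)
  bd : ∀ a ∈ F, ∀ k (h : k < s.length), D.idx k a ≤ s[k]

instance : Preorder (Cond D) where
  le q p := p.F ⊆ q.F ∧ (∀ v ∈ q.V, ∃ w ∈ p.V, D.U v ⊆ D.U w) ∧ p.s <+: q.s
  le_refl p := ⟨Finset.Subset.refl _, fun v hv => ⟨v, hv, Subset.rfl⟩, List.prefix_refl _⟩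
  le_trans a b c hab hbc := ⟨hbc.1.trans hab.1, fun v hv => by
    obtain ⟨w, hw, h1⟩ := hab.2.1 v hv
    obtain ⟨x, hx, h2⟩ := hbc.2.1 w hw
    exact ⟨x, hx, h1.trans h2⟩, hbc.2.2.trans hab.2.2⟩

theorem le_iff (q p : Cond D) : q ≤ p ↔ p.F ⊆ q.F ∧ (∀ v ∈ q.V, ∃ w ∈ p.V, D.U v ⊆ D.U w) ∧
    p.s <+: q.s := Iff.rfl

/-- Shrinking the neighbourhoods.

PROOF. For `a ∈ F` choose `w a ∈ V` with `p a ∈ U (w a)` and, by `U_base`, `v a` with
`p a ∈ U (v a)` and `closure (U (v a))` contained in the open set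
`U (w a) ∩ ball (p a) (ε/3) ∩ Zᶜ ∩ ⋂ a' ∈ F, a' ≠ a, k < N, good k a', (closure (R k N a'))ᶜ`
(finite intersection; it contains `p a` by `free`). Let `V'` be the image of `F` under `v`. -/
theorem refine_exists (F : Finset B) (V : Finset ℕ) (hcov : ∀ a ∈ F, ∃ v ∈ V, D.p a ∈ D.U v)
    (N : ℕ) (ε : ℝ) (hε : 0 < ε) (Z : Set M) (hZc : IsClosed Z) (hZ : ∀ a ∈ F, D.p a ∉ Z) :
    ∃ V' : Finset ℕ, (∀ a ∈ F, ∃ v ∈ V', D.p a ∈ D.U v) ∧
      (∀ v ∈ V', ∃ w ∈ V, D.U v ⊆ D.U w) ∧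
      (∀ v ∈ V', ∀ x ∈ closure (D.U v), ∀ y ∈ closure (D.U v), dist x y < ε) ∧
      (∀ v ∈ V', Disjoint (closure (D.U v)) Z) ∧
      (∀ a ∈ F, ∀ v ∈ V', D.p a ∉ closure (D.U v) → ∀ k < N, D.good k a →
        Disjoint (closure (D.U v)) (D.R k N a)) := by
  classical
  let O : B → Set M := fun a => ⋂ a' ∈ F, ⋂ k ∈ Finset.range N,
    {x | a' ≠ a → D.good k a' → x ∉ closure (D.R k N a')}
  have hO : ∀ a, IsOpen (O a) := by
    intro a
    refine isOpen_biInter_finset fun a' _ => isOpen_biInter_finset fun k _ => ?_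
    by_cases h1 : a' ≠ a
    · by_cases h2 : D.good k a'
      · have h3 : {x : M | a' ≠ a → D.good k a' → x ∉ closure (D.R k N a')} =
            (closure (D.R k N a'))ᶜ := by
          ext x
          exact ⟨fun h => h h1 h2, fun h _ _ => h⟩
        rw [h3]
        exact isClosed_closure.isOpen_compl
      · have h3 : {x : M | a' ≠ a → D.good k a' → x ∉ closure (D.R k N a')} = Set.univ := by
          ext x
          exact ⟨fun _ => trivial, fun _ _ h => absurd h h2⟩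
        rw [h3]
        exact isOpen_univ
    · have h3 : {x : M | a' ≠ a → D.good k a' → x ∉ closure (D.R k N a')} = Set.univ := by
        ext x
        exact ⟨fun _ => trivial, fun _ h => absurd h h1⟩
      rw [h3]
      exact isOpen_univ
  have hpO : ∀ a, D.p a ∈ O a := by
    intro a
    simp only [O, mem_iInter, Set.mem_ofPred_eq]
    intro a' _ k _ h1 h2
    exact D.free a a' (Ne.symm h1) k N h2
  have hex : ∀ a : B, ∃ v : ℕ, a ∈ F → D.p a ∈ D.U v ∧ (∃ w ∈ V, closure (D.U v) ⊆ D.U w) ∧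
      closure (D.U v) ⊆ Metric.ball (D.p a) (ε / 3) ∧ closure (D.U v) ⊆ Zᶜ ∧
      closure (D.U v) ⊆ O a := by
    intro a
    by_cases ha : a ∈ F
    · obtain ⟨w, hw, hpw⟩ := hcov a ha
      obtain ⟨v, hv1, hv2⟩ := D.U_base (D.p a)
        (D.U w ∩ (Metric.ball (D.p a) (ε / 3) ∩ (Zᶜ ∩ O a)))
        ((D.U_open w).inter (Metric.isOpen_ball.inter (hZc.isOpen_compl.inter (hO a))))
        ⟨hpw, Metric.mem_ball_self (by positivity), hZ a ha, hpO a⟩
      exact ⟨v, fun _ => ⟨hv1, ⟨w, hw, fun x hx => (hv2 hx).1⟩, fun x hx => (hv2 hx).2.1,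
        fun x hx => (hv2 hx).2.2.1, fun x hx => (hv2 hx).2.2.2⟩⟩
    · exact ⟨0, fun h => absurd h ha⟩
  choose v hv using hex
  refine ⟨F.image v, ?_, ?_, ?_, ?_, ?_⟩
  · intro a ha
    exact ⟨v a, Finset.mem_image_of_mem v ha, (hv a ha).1⟩
  · intro x hx
    obtain ⟨a, ha, rfl⟩ := Finset.mem_image.1 hx
    obtain ⟨w, hw, h⟩ := (hv a ha).2.1
    exact ⟨w, hw, subset_closure.trans h⟩
  · intro x hx y hy z hz
    obtain ⟨a, ha, rfl⟩ := Finset.mem_image.1 hx
    have h1 := (hv a ha).2.2.1 hy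
    have h2 := (hv a ha).2.2.1 hz
    rw [Metric.mem_ball] at h1 h2
    have h3 := dist_triangle_right y z (D.p a)
    linarith
  · intro x hx
    obtain ⟨a, ha, rfl⟩ := Finset.mem_image.1 hx
    exact Set.disjoint_left.2 fun y hy => (hv a ha).2.2.2.1 hy
  · intro a ha x hx hpx k hk hgood
    obtain ⟨a', ha', rfl⟩ := Finset.mem_image.1 hx
    refine Set.disjoint_left.2 fun y hy hyR => ?_
    have h1 := (hv a' ha').2.2.2.2 hy
    simp only [O, mem_iInter, Set.mem_ofPred_eq] at h1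
    have h2 : a ≠ a' := by
      rintro rfl
      exact hpx (subset_closure (hv a ha).1)
    exact h1 a ha k (Finset.mem_range.2 hk) h2 hgood (subset_closure hyR)

end Pool.Agent.W_3b51b4_h27.Gen
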