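import Pool.Agent.W_3b51b4_h27.Final
import Pool.Agent.Results.MP_3b51b4_gt.MartinAxiomSmallWeight

/-!
# Perfectly normal compacta and `p(C_p(X))` under Martin's axiom and Todorcevic's open colouring
axiom

If Martin's axiom holds for `ℵ₁` dense sets and the open colouring axiom holds, then every
perfectly normal compactum `X` with `p(C_p(X)) = ω` is metrizable. More generally, every perfectly
normal compact subspace of a Tychonoff space `X` with `p(C_p(X)) = ω` is metrizable.
-/

namespace Pool.Agent.W_3b51b4_h27

open Set Topology Cardinal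
open Pool.Agent.W_MP_3b51b4_gt Pool.Agent.Results.MP_3b51b4_gt

universe u

/-- Under Martin's axiom for `ℵ₁` dense sets and the open colouring axiom, every perfectly normal
compact subspace `Y` of a Tychonoff space `X` with `p(C_p(X)) = ω` is metrizable (`Y = X`
allowed). -/
theorem main_oca (hMA : MA ℵ₁) (hOCA : OCA) (X : Type u) [TopologicalSpace X] [T35Space X]
    (hp : PointFiniteCellularityCountable (Cp X)) (Y : Set X) (hY : IsCompact Y)
    [PerfectlyNormalSpace Y] : TopologicalSpace.MetrizableSpace Y := by
  have : CompactSpace Y := isCompact_iff_compactSpace.1 hY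
  by_cases hw : WeightLE Y ℵ₁
  · exact MartinAxiomSmallWeight.result ℵ₁ hMA X hp Y hY hw
  · obtain ⟨Ω, x, y, hΩ, hne, hd⟩ := exists_discrete_pairs hMA hOCA hw
    exact absurd hp (not_pfc Y hY x y hΩ hne hd)

end Pool.Agent.W_3b51b4_h27
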