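import Mathlib

/-!
# The Open Colouring Axiom of Todorcevic
-/

namespace Pool.Agent.W_3b51b4_h27

/-- The Open Colouring Axiom OCA (Todorcevic): for every separable metrizable space `S` and every
symmetric open set `G` of pairs (a graph on `S`), either there is an uncountable set `A` all of
whose pairs of distinct points belong to `G`, or `S` is a countable union of sets (given by a
colouring `c` with values in `ℕ`) without pairs of distinct points in `G`. -/
def OCA : Prop :=
  ∀ (S : Type) [TopologicalSpace S] [SecondCountableTopology S]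
    [TopologicalSpace.MetrizableSpace S] (G : Set (S × S)), IsOpen G →
    (∀ x y, (x, y) ∈ G → (y, x) ∈ G) →
    (∃ A : Set S, ¬ A.Countable ∧ ∀ x ∈ A, ∀ y ∈ A, x ≠ y → (x, y) ∈ G) ∨
    (∃ c : S → ℕ, ∀ x y, x ≠ y → c x = c y → (x, y) ∉ G)

end Pool.Agent.W_3b51b4_h27
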