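import Pool.Agent.W_3b51b4_h27.Defs

/-!
# Step 1 and 2: the colouring given by OCA and the countable dense set
-/

namespace Pool.Agent.W_3b51b4_h27

open Set Topology Cardinal

universe u

/-- A countable base of `ℕ → ℝ`. -/
theorem OcaStep_base : ∃ V : ℕ → Set (ℕ → ℝ), (∀ n, IsOpen (V n)) ∧
    ∀ (x : ℕ → ℝ) (U : Set (ℕ → ℝ)), IsOpen U → x ∈ U → ∃ n, x ∈ V n ∧ V n ⊆ U := by
  have hB := TopologicalSpace.isBasis_countableBasis (ℕ → ℝ)
  have hc := TopologicalSpace.countable_countableBasis (ℕ → ℝ)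
  have hne : (TopologicalSpace.countableBasis (ℕ → ℝ)).Nonempty := by
    obtain ⟨v, hv, _⟩ := hB.exists_subset_of_mem_open (mem_univ (0 : ℕ → ℝ)) isOpen_univ
    exact ⟨v, hv⟩
  obtain ⟨V, hV⟩ := hc.exists_eq_range hne
  refine ⟨V, fun n => hB.isOpen (by rw [hV]; exact mem_range_self n), fun x U hU hx => ?_⟩
  obtain ⟨v, hv, h1, h2⟩ := hB.exists_subset_of_mem_open hx hU
  rw [hV] at hv
  obtain ⟨n, rfl⟩ := hv
  exact ⟨n, h1, h2⟩

/-- A basic open set which contains `π z` and misses the image of a closed set, if the fibre of `z`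
misses the closed set. -/
theorem OcaStep_sep {X : Type u} [TopologicalSpace X] [CompactSpace X] {π : X → ℕ → ℝ}
    (hπ : Continuous π) {V : ℕ → Set (ℕ → ℝ)}
    (hV : ∀ (x : ℕ → ℝ) (U : Set (ℕ → ℝ)), IsOpen U → x ∈ U → ∃ n, x ∈ V n ∧ V n ⊆ U)
    {D : Set X} (hD : IsClosed D) {z : X} (h : FibIn π z Dᶜ) :
    ∃ n, π z ∈ V n ∧ ∀ y ∈ D, π y ∉ V n := by
  have h1 : IsClosed (π '' D) := (hD.isCompact.image hπ).isClosed
  have h2 : π z ∈ (π '' D)ᶜ := by
    rintro ⟨y, hy, hyz⟩
    exact h y hyz hy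
  obtain ⟨n, h3, h4⟩ := hV (π z) _ h1.isOpen_compl h2
  exact ⟨n, h3, fun y hy hyn => h4 hyn ⟨y, hy, rfl⟩⟩

open Classical in
/-- The code of a pair. -/
noncomputable def OcaStep_code {X : Type u} (π : X → ℕ → ℝ) (V : ℕ → Set (ℕ → ℝ))
    (D : X × X → Set X) (r : X × X) : (ℕ → ℝ) × (ℕ → Bool) :=
  (π r.1, fun n => decide (∀ y ∈ D r, π y ∉ V n))

/-- One colouring from OCA. -/
theorem OcaStep_colour (hOCA : OCA) {X : Type u} [TopologicalSpace X] [CompactSpace X]
    [HereditarilyLindelofSpace X] (π : X → ℕ → ℝ) (hπ : Continuous π)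
    (D U : X × X → Set X) (x : X × X → X) (hD : ∀ r, IsClosed (D r)) (hU : ∀ r, IsOpen (U r))
    (hUD : ∀ r, U r ⊆ D r) (hx : ∀ r, Pr π r → x r ∈ U r) (hxπ : ∀ r, Pr π r → π (x r) = π r.1) :
    ∃ c : X × X → ℕ, ∀ r r', Pr π r → Pr π r' → c r = c r' →
      FibIn π r'.1 (D r)ᶜ → FibIn π r.1 (D r')ᶜ → False := by
  classical
  obtain ⟨V, hVo, hV⟩ := OcaStep_base
  let T := (ℕ → ℝ) × (ℕ → Bool)
  let S := {t : T // ∃ r, Pr π r ∧ OcaStep_code π V D r = t}
  have hsc : SecondCountableTopology S := TopologicalSpace.Subtype.secondCountableTopology _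
  have hmt : TopologicalSpace.MetrizableSpace S :=
    TopologicalSpace.metrizableSpace_of_t3_secondCountable S
  let G : Set (S × S) := {p | (∃ n, p.1.1.2 n = true ∧ p.2.1.1 ∈ V n) ∧
    (∃ n, p.2.1.2 n = true ∧ p.1.1.1 ∈ V n)}
  have hG : IsOpen G := by
    have e : G = (⋃ n, ({p : S × S | p.1.1.2 n = true} ∩ {p : S × S | p.2.1.1 ∈ V n})) ∩
        (⋃ n, ({p : S × S | p.2.1.2 n = true} ∩ {p : S × S | p.1.1.1 ∈ V n})) := by
      ext p
      simp only [G, mem_ofPred_eq, mem_inter_iff, mem_iUnion]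
    rw [e]
    have hb1 : ∀ n, Continuous fun p : S × S => p.1.1.2 n := fun n =>
      (continuous_apply n).comp
        (continuous_snd.comp (continuous_subtype_val.comp continuous_fst))
    have hb2 : ∀ n, Continuous fun p : S × S => p.2.1.2 n := fun n =>
      (continuous_apply n).comp
        (continuous_snd.comp (continuous_subtype_val.comp continuous_snd))
    have hv1 : Continuous fun p : S × S => p.1.1.1 :=
      continuous_fst.comp (continuous_subtype_val.comp continuous_fst)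
    have hv2 : Continuous fun p : S × S => p.2.1.1 :=
      continuous_fst.comp (continuous_subtype_val.comp continuous_snd)
    refine IsOpen.inter (isOpen_iUnion fun n => IsOpen.inter ?_ ?_)
      (isOpen_iUnion fun n => IsOpen.inter ?_ ?_)
    · exact (isOpen_discrete ({true} : Set Bool)).preimage (hb1 n)
    · exact (hVo n).preimage hv2
    · exact (isOpen_discrete ({true} : Set Bool)).preimage (hb2 n)
    · exact (hVo n).preimage hv1
  have hsymm : ∀ a b, (a, b) ∈ G → (b, a) ∈ G := fun a b h => ⟨h.2, h.1⟩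
  rcases hOCA S G hG hsymm with ⟨A, hA, hcl⟩ | ⟨c0, hc0⟩
  · exfalso
    apply hA
    have hr : ∀ a : A, ∃ r, Pr π r ∧ OcaStep_code π V D r = a.1.1 := fun a => a.1.2
    choose r hr1 hr2 using hr
    obtain ⟨t, ht, htU⟩ := eq_open_union_countable (fun a : A => U (r a)) fun a => hU _
    have huniv : (univ : Set A) ⊆ t := by
      intro a _
      have h1 : x (r a) ∈ ⋃ i, U (r i) := mem_iUnion.2 ⟨a, hx _ (hr1 a)⟩
      rw [← htU] at h1
      simp only [mem_iUnion] at h1
      obtain ⟨b, hbt, hb⟩ := h1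
      by_cases hab : b = a
      · rw [← hab]; exact hbt
      exfalso
      have h2 : ((b.1, a.1) : S × S) ∈ G :=
        hcl b.1 b.2 a.1 a.2 fun h => hab (Subtype.ext h)
      obtain ⟨⟨n, h3, h4⟩, -⟩ := h2
      have h5 : (OcaStep_code π V D (r b)).2 n = true := by rw [hr2 b]; exact h3
      have h6 : ∀ y ∈ D (r b), π y ∉ V n := of_decide_eq_true h5
      have h7 : (OcaStep_code π V D (r a)).1 ∈ V n := by rw [hr2 a]; exact h4
      apply h6 (x (r a)) (hUD _ hb)
      rw [hxπ _ (hr1 a)]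
      exact h7
    have h8 : (univ : Set A).Countable := ht.mono huniv
    rw [countable_univ_iff] at h8
    exact h8
  · refine ⟨fun r => if h : Pr π r then c0 ⟨OcaStep_code π V D r, r, h, rfl⟩ else 0, ?_⟩
    intro r r' hr hr' hcc h1 h2
    simp only [dif_pos hr, dif_pos hr'] at hcc
    by_cases he : OcaStep_code π V D r = OcaStep_code π V D r'
    · have h3 : π r.1 = π r'.1 := congrArg Prod.fst he
      exact h1 (x r) ((hxπ r hr).trans h3) (hUD r (hx r hr))
    · refine hc0 _ _ (fun h => he (congrArg Subtype.val h)) hcc ⟨?_, ?_⟩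
      · obtain ⟨n, h3, h4⟩ := OcaStep_sep hπ hV (hD r) h1
        exact ⟨n, decide_eq_true h4, h3⟩
      · obtain ⟨n, h3, h4⟩ := OcaStep_sep hπ hV (hD r') h2
        exact ⟨n, decide_eq_true h4, h3⟩

/-- OCA step. Let `X` be a hereditarily Lindelof compactum, `π : X → ℝ ^ ℕ` continuous, `F r` a
continuous function with `F r r.1 = 0` and `F r r.2 = 1` for every pair `r` of distinct points.

PROOF. Let `V : ℕ → Set (ℕ → ℝ)` enumerate all finite unions of members of a countable base of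
`ℕ → ℝ`. Put `T := (ℕ → ℝ) × (ℕ → Bool) × (ℕ → Bool)` (second countable, metrizable). Code of a
pair `r`: `code r := (π r.1, fun n => decide (∀ y, F r y ≤ 1/3 → π y ∉ V n),
fun n => decide (∀ y, 2/3 ≤ F r y → π y ∉ V n))`.
Graph `G1 : Set (T × T)`: `((m,s,t),(m',s',t')) ∈ G1` iff `(∃ n, s n = true ∧ m' ∈ V n)` and
`(∃ n, s' n = true ∧ m ∈ V n)`; it is open and symmetric. `G2` is the same with `t, t'`.
(a) For pairs `r, r'` with `Pr π`: `FibIn π r'.1 {y | 1/3 < F r y}` implies
`∃ n, s_r n ∧ π r'.1 ∈ V n`: the image `π '' {y | F r y ≤ 1/3}` is compact and does not contain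
`π r'.1`, so `π r'.1` has a basic open neighbourhood missing it. Same for `2/3 ≤ F r`.
(b) Conversely `s_r n` and `π r'.1 ∈ V n` give `1/3 < F r r'.1` (and `F r r'.2 < 2/3` in the
second case, as `π r'.2 = π r'.1`).
(c) Apply OCA to the subspace `range code` restricted to `{r // Pr π r}` (a subtype of `T`, so
`S : Type`), first with `G1`, then with `G2`. An uncountable clique `A`: choose for `a ∈ A` a pair
`r a` with code `a`; by (b) the open sets `U a := {y | F (r a) y < 1/3}` satisfy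
`(r a).1 ∈ U a`, `(r b).1 ∉ U a` for `a ≠ b`; by `eq_open_union_countable` countably many `U a`
cover all points `(r a).1`, so `A` is countable, contradiction. For `G2` use
`U a := {y | 2/3 < F (r a) y}` and the points `(r a).2`. So we get two colourings of the codes;
let `c r` be a code in `ℕ` of the pair of colours (`Nat.pair`) of `code r` (any value if not
`Pr π r`). If `code r ≠ code r'`, (a) and the colouring give the independence properties. If
`code r = code r'` then `π r.1 = π r'.1` and `FibIn π r'.1 {y | 1/3 < F r y}` fails at `y = r.1`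
(value `0`), `FibIn π r'.1 {y | F r y < 2/3}` fails at `y = r.2` (value `1`).
(d) The set `E`: for every colour `k` and every `n` such that some `r` with `Pr π r`, `c r = k` has
`π r.1 ∈ V n`, choose one such `r`; `E` is the countable set of chosen pairs. If `U` is open and
`FibIn π r.1 U` then `π r.1` is not in the compact set `π '' Uᶜ`, so some `V n` contains `π r.1`
and misses `π '' Uᶜ`; the chosen pair `e` for `(c r, n)` satisfies `FibIn π e.1 U`. -/
theorem oca_step (hOCA : OCA) {X : Type u} [TopologicalSpace X] [CompactSpace X]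
    [HereditarilyLindelofSpace X] (π : X → ℕ → ℝ) (hπ : Continuous π)
    (F : X × X → X → ℝ) (hF : ∀ r, Continuous (F r)) (hF0 : ∀ r : X × X, r.1 ≠ r.2 → F r r.1 = 0)
    (hF1 : ∀ r : X × X, r.1 ≠ r.2 → F r r.2 = 1) :
    ∃ (c : X × X → ℕ) (E : Set (X × X)), E.Countable ∧ (∀ e ∈ E, Pr π e) ∧
      (∀ r r', Pr π r → Pr π r' → c r = c r' →
        FibIn π r'.1 {y | 1 / 3 < F r y} → FibIn π r.1 {y | 1 / 3 < F r' y} → False) ∧
      (∀ r r', Pr π r → Pr π r' → c r = c r' →
        FibIn π r'.1 {y | F r y < 2 / 3} → FibIn π r.1 {y | F r' y < 2 / 3} → False) ∧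
      (∀ U : Set X, IsOpen U → ∀ r, Pr π r → FibIn π r.1 U →
        ∃ e ∈ E, c e = c r ∧ FibIn π e.1 U) := by
  classical
  obtain ⟨V, hVo, hV⟩ := OcaStep_base
  have hcp : ∀ r, {y | F r y ≤ 1 / 3}ᶜ = {y | 1 / 3 < F r y} := fun r => by
    ext y; simp
  have hcp2 : ∀ r, {y | 2 / 3 ≤ F r y}ᶜ = {y | F r y < 2 / 3} := fun r => by
    ext y; simp
  obtain ⟨c1, hc1⟩ := OcaStep_colour hOCA π hπ (fun r => {y | F r y ≤ 1 / 3})
    (fun r => {y | F r y < 1 / 3}) Prod.fst
    (fun r => isClosed_le (hF r) continuous_const) (fun r => isOpen_lt (hF r) continuous_const)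
    (fun r y (hy : F r y < 1 / 3) => (hy.le : F r y ≤ 1 / 3))
    (fun r hr => by rw [mem_ofPred_eq, hF0 r hr.1]; norm_num) (fun r _ => rfl)
  obtain ⟨c2, hc2⟩ := OcaStep_colour hOCA π hπ (fun r => {y | 2 / 3 ≤ F r y})
    (fun r => {y | 2 / 3 < F r y}) Prod.snd
    (fun r => isClosed_le continuous_const (hF r)) (fun r => isOpen_lt continuous_const (hF r))
    (fun r y (hy : 2 / 3 < F r y) => (hy.le : 2 / 3 ≤ F r y))
    (fun r hr => by rw [mem_ofPred_eq, hF1 r hr.1]; norm_num) (fun r hr => hr.2.symm)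
  let c : X × X → ℕ := fun r => Nat.pair (c1 r) (c2 r)
  let f : {p : ℕ × ℕ // ∃ r, Pr π r ∧ c r = p.1 ∧ π r.1 ∈ V p.2} → X × X :=
    fun p => Classical.choose p.2
  have hf : ∀ p, Pr π (f p) ∧ c (f p) = p.1.1 ∧ π (f p).1 ∈ V p.1.2 := fun p =>
    Classical.choose_spec p.2
  refine ⟨c, range f, countable_range f, ?_, ?_, ?_, ?_⟩
  · rintro _ ⟨p, rfl⟩
    exact (hf p).1
  · intro r r' hr hr' hcc h1 h2
    have h3 := (Nat.pair_eq_pair.1 hcc).1
    refine hc1 r r' hr hr' h3 ?_ ?_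
    · rw [hcp]; exact h1
    · rw [hcp]; exact h2
  · intro r r' hr hr' hcc h1 h2
    have h3 := (Nat.pair_eq_pair.1 hcc).2
    refine hc2 r r' hr hr' h3 ?_ ?_
    · rw [hcp2]; exact h1
    · rw [hcp2]; exact h2
  · intro U hU r hr hfib
    obtain ⟨n, h1, h2⟩ := OcaStep_sep hπ hV hU.isClosed_compl (z := r.1)
      (by rw [compl_compl]; exact hfib)
    let p : {p : ℕ × ℕ // ∃ r, Pr π r ∧ c r = p.1 ∧ π r.1 ∈ V p.2} :=
      ⟨(c r, n), r, hr, rfl, h1⟩
    refine ⟨f p, mem_range_self p, (hf p).2.1, fun y hy => ?_⟩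
    by_contra hyU
    apply h2 y hyU
    rw [hy]
    exact (hf p).2.2

end Pool.Agent.W_3b51b4_h27
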