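import Pool.Agent.W_3b51b4_h27.OcaStep
import Pool.Agent.W_3b51b4_h27.Chain

/-!
# Step 4: witnesses for badness; existence of a `Setup`
-/

namespace Pool.Agent.W_3b51b4_h27

open Set Topology Cardinal

universe u

/-- Existence of the set-up.

PROOF. For every sequence `D` of continuous functions apply `oca_step` to `π x n := D n x` and
choose `c D`, `E D`; let `Φ D : ℕ → X → ℝ` be a sequence whose range contains all `F e`, `e ∈ E D`
(if `E D` is empty, `Φ D := D`; every `Φ D n` is `D n` or some `F e`, so continuous; if `D` is not a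
sequence of continuous functions put `Φ D := D`). Apply `chain` and get `D, A, z, C`. Put
`π x n := D n x`, `c := c D`, `E := E D`.
For `s : Bool`, `k n : ℕ` let `Bad s k n := {a : A | ¬ ∃ r, Pr π r ∧ c r = k ∧
FibIn π r.1 {y | g (z s a) y < 1/(n+1)}}`. By `eq_open_union_countable` for the open sets
`{y | g (z s a) y < 1/(2*(n+1))}`, `a ∈ Bad s k n`, there is a countable `J s k n ⊆ Bad s k n` such
that for every `a ∈ Bad s k n` some `b ∈ J s k n` has `g (z s b) (z s a) < 1/(2*(n+1))` (note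
`g (z s a) (z s a) = 0`). By `bdd_of_card_le` there is `γ : A` strictly above all elements of all
`J s k n`. Take `Ω := {a : A // γ < a}` (still of size bigger than `ℵ₁`, since `#(Iic γ) ≤ ℵ₁`),
the restriction of `z` to `Ω`, the family `C γ` as `C`, and `W s k n := z s '' J s k n`.
`C_const`: `range (C γ) ⊆ range (C a)` for `γ < a`. `F_mem`: `F e = Φ D n = C γ i`. `g_const`: for
`b < a`, `g (z s b)` is some `C a i`. `W_mem`: for `b ∈ J s k n`, `b < γ`, `g (z s b)` is some
`C γ i`. `W_bad`, `W_cov`: by the choice of `J s k n`. -/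
theorem exists_setup (hOCA : OCA) {X : Type u} [TopologicalSpace X] [CompactSpace X]
    [HereditarilyLindelofSpace X]
    (hw : ∀ D : Om1 → X → ℝ, (∀ i, Continuous (D i)) → ∃ x y, x ≠ y ∧ ∀ i, D i x = D i y)
    (g : X → X → ℝ) (hg : ∀ z, Continuous (g z)) (hg0 : ∀ z y, 0 ≤ g z y)
    (hgz : ∀ z y, g z y = 0 ↔ y = z)
    (F : X × X → X → ℝ) (hF : ∀ r, Continuous (F r)) (hF0 : ∀ r : X × X, r.1 ≠ r.2 → F r r.1 = 0)
    (hF1 : ∀ r : X × X, r.1 ≠ r.2 → F r r.2 = 1) :
    ∃ (Ω : Type) (_ : LinearOrder Ω) (_ : WellFoundedLT Ω), ℵ₁ < #Ω ∧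
      Nonempty (Setup X Ω Om1) := by
  classical
  -- the colourings
  have hoca : ∀ D : ℕ → X → ℝ, ∃ (c : X × X → ℕ) (E : Set (X × X)), (∀ n, Continuous (D n)) →
      E.Countable ∧ (∀ e ∈ E, Pr (fun x n => D n x) e) ∧
      (∀ r r', Pr (fun x n => D n x) r → Pr (fun x n => D n x) r' → c r = c r' →
        FibIn (fun x n => D n x) r'.1 {y | 1 / 3 < F r y} →
          FibIn (fun x n => D n x) r.1 {y | 1 / 3 < F r' y} → False) ∧
      (∀ r r', Pr (fun x n => D n x) r → Pr (fun x n => D n x) r' → c r = c r' →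
        FibIn (fun x n => D n x) r'.1 {y | F r y < 2 / 3} →
          FibIn (fun x n => D n x) r.1 {y | F r' y < 2 / 3} → False) ∧
      (∀ U : Set X, IsOpen U → ∀ r, Pr (fun x n => D n x) r → FibIn (fun x n => D n x) r.1 U →
        ∃ e ∈ E, c e = c r ∧ FibIn (fun x n => D n x) e.1 U) := by
    intro D
    by_cases hD : ∀ n, Continuous (D n)
    · obtain ⟨c, E, h⟩ := oca_step hOCA (fun x n => D n x) (continuous_pi fun n => hD n) F hF hF0 hF1
      exact ⟨c, E, fun _ => h⟩
    · exact ⟨fun _ => 0, ∅, fun h => absurd h hD⟩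
  choose c E hcE using hoca
  -- the functions `Φ D`
  have hPhi : ∀ D : ℕ → X → ℝ, ∃ P : ℕ → X → ℝ, (∀ n, Continuous (D n)) →
      (∀ n, Continuous (P n)) ∧ ∀ e ∈ E D, ∃ n, P n = F e := by
    intro D
    by_cases hD : ∀ n, Continuous (D n)
    · by_cases hne : (E D).Nonempty
      · obtain ⟨f, hf⟩ := (hcE D hD).1.exists_eq_range hne
        refine ⟨fun n => F (f n), fun _ => ⟨fun n => hF _, fun e he => ?_⟩⟩
        rw [hf] at he
        obtain ⟨n, hn⟩ := he
        exact ⟨n, congrArg F hn⟩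
      · exact ⟨D, fun _ => ⟨hD, fun e he => absurd ⟨e, he⟩ hne⟩⟩
    · exact ⟨D, fun h => absurd h hD⟩
  choose Φ hΦ using hPhi
  obtain ⟨D, hD, A, hlin, hwf, hA1, hA2, z, C, hzne, hCc, hCk, hDz, hCΦ, hCg, hCm⟩ :=
    chain hw g hg Φ (fun D hD => (hΦ D hD).1)
  obtain ⟨-, hE2, hE3, hE4, hE5⟩ := hcE D hD
  -- the witnesses
  have hJ : ∀ (s : Bool) (k n : ℕ), ∃ J : Set A, J.Countable ∧
      (∀ b ∈ J, ¬ ∃ r, Pr (fun x n => D n x) r ∧ c D r = k ∧
        FibIn (fun x n => D n x) r.1 {y | g (z s b) y < 1 / ((n : ℝ) + 1)}) ∧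
      ∀ a, (¬ ∃ r, Pr (fun x n => D n x) r ∧ c D r = k ∧
        FibIn (fun x n => D n x) r.1 {y | g (z s a) y < 1 / ((n : ℝ) + 1)}) →
        ∃ b ∈ J, g (z s b) (z s a) < 1 / (2 * ((n : ℝ) + 1)) := by
    intro s k n
    obtain ⟨t, ht, htU⟩ := eq_open_union_countable
      (fun a : {a : A // ¬ ∃ r, Pr (fun x n => D n x) r ∧ c D r = k ∧
        FibIn (fun x n => D n x) r.1 {y | g (z s a) y < 1 / ((n : ℝ) + 1)}} =>
        {y | g (z s a.1) y < 1 / (2 * ((n : ℝ) + 1))})
      (fun a => isOpen_lt (hg _) continuous_const)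
    refine ⟨Subtype.val '' t, ht.image _, ?_, ?_⟩
    · rintro _ ⟨b, -, rfl⟩
      exact b.2
    · intro a ha
      have h1 : z s a ∈ ⋃ i : {a : A // ¬ ∃ r, Pr (fun x n => D n x) r ∧ c D r = k ∧
          FibIn (fun x n => D n x) r.1 {y | g (z s a) y < 1 / ((n : ℝ) + 1)}},
          {y | g (z s i.1) y < 1 / (2 * ((n : ℝ) + 1))} := by
        refine mem_iUnion.2 ⟨⟨a, ha⟩, ?_⟩
        rw [mem_ofPred_eq, (hgz _ _).2 rfl]
        positivity
      rw [← htU] at h1
      simp only [mem_iUnion] at h1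
      obtain ⟨b, hb, hab⟩ := h1
      exact ⟨b.1, ⟨b, hb, rfl⟩, hab⟩
  choose J hJc hJb hJa using hJ
  obtain ⟨γ, hγ⟩ := bdd_of_card_le hA1 hA2 (⋃ (s : Bool) (k : ℕ) (n : ℕ), J s k n) (by
    have h6 : (⋃ (s : Bool) (k : ℕ) (n : ℕ), J s k n).Countable :=
      countable_iUnion fun s => countable_iUnion fun k => countable_iUnion fun n => hJc s k n
    exact (Cardinal.mk_le_aleph0_iff.2 h6.to_subtype).trans Press_aleph)
  have hγ' : ∀ s k n, ∀ b ∈ J s k n, b < γ := fun s k n b hb =>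
    hγ b (mem_iUnion.2 ⟨s, mem_iUnion.2 ⟨k, mem_iUnion.2 ⟨n, hb⟩⟩⟩)
  have hsize : ℵ₁ < #{a : A // γ < a} := by
    by_contra hcon
    push Not at hcon
    obtain ⟨δ, hδ⟩ := bdd_of_card_le hA1 hA2 (insert γ (Ioi γ)) (by
      refine (Cardinal.mk_insert_le).trans ?_
      calc #(Ioi γ) + 1 ≤ ℵ₁ + ℵ₁ := add_le_add hcon (Cardinal.one_le_aleph0.trans Press_aleph)
        _ = ℵ₁ := Cardinal.add_eq_self Press_aleph)
    exact lt_irrefl δ (hδ δ (mem_insert_of_mem _ (hδ γ (mem_insert _ _))))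
  have hconst : ∀ (i : Om1) (a : A), γ < a → ConstOn (fun x n => D n x) (C γ i) (z false a) := by
    intro i a ha
    obtain ⟨j, hj⟩ := hCm a γ ha.le ⟨i, rfl⟩
    rw [← hj]
    exact hCk a j
  refine ⟨{a : A // γ < a}, inferInstance, inferInstance, hsize, ⟨?_⟩⟩
  exact
    { g := g
      g_cont := hg
      g_nonneg := hg0
      g_zero := hgz
      F := F
      F_cont := hF
      F_zero := hF0
      F_one := hF1
      π := fun x n => D n x
      π_cont := continuous_pi fun n => hD n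
      c := c D
      E := E D
      E_pr := hE2
      indep1 := hE3
      indep2 := hE4
      dens := hE5
      z := fun s a => z s a.1
      z_ne := fun a => hzne a.1
      z_pi := fun a => funext fun n => hDz a.1 n
      C := C γ
      C_cont := hCc γ
      C_const := fun i a => hconst i a.1 a.2
      F_mem := fun e he => by
        obtain ⟨n, hn⟩ := (hΦ D hD).2 e he
        obtain ⟨i, hi⟩ := hCΦ γ n
        exact ⟨i, hi.trans hn⟩
      g_const := fun a b hba s => by
        obtain ⟨i, hi⟩ := hCg a.1 b.1 hba s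
        rw [← hi]
        exact hCk a.1 i
      W := fun s k n => z s '' J s k n
      W_count := fun s k n => (hJc s k n).image _
      W_mem := fun s k n w hw => by
        obtain ⟨b, hb, rfl⟩ := hw
        exact hCg γ b (hγ' s k n b hb) s
      W_bad := fun s k n w hw => by
        obtain ⟨b, hb, rfl⟩ := hw
        exact hJb s k n b hb
      W_cov := fun s k n a ha => by
        obtain ⟨b, hb, hab⟩ := hJa s k n a.1 ha
        exact ⟨z s b, ⟨b, hb, rfl⟩, hab⟩ }

end Pool.Agent.W_3b51b4_h27
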